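import Pool.Agent.Helper96.TF.Defs
import Pool.Agent.Helper93.TF.Lattice
import Pool.Agent.Helper67.TF.Scale

set_option autoImplicit false

open MeasureTheory Set Filter Topology

namespace Pool.Agent.Helper96.TF

noncomputable section

/-- twice the derivative of `gprof` -/
def hprof (t : ℝ) : ℝ := if t ≤ 1 then (-5 + 3 * t) / 2 else -((Real.sqrt t)⁻¹ ^ 3)

/-- derivative of `hprof` -/
def hprof2 (t : ℝ) : ℝ := if t ≤ 1 then 3 / 2 else (3 / 2) * (Real.sqrt t)⁻¹ ^ 5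

/-- the components of the gradient of `v` -/
def b (i : Fin 3) (x : X) : ℝ := hprof (‖x‖ ^ 2) * x i

lemma glue (p q p' q' : ℝ → ℝ) (hp : ∀ t, t ≤ 1 → HasDerivAt p (p' t) t)
    (hq : ∀ t, 1 ≤ t → HasDerivAt q (q' t) t) (h1 : p 1 = q 1) (h1' : p' 1 = q' 1) (t : ℝ) :
    HasDerivAt (fun t => if t ≤ 1 then p t else q t) (if t ≤ 1 then p' t else q' t) t := by
  rcases lt_trichotomy t 1 with h | h | h
  · rw [if_pos h.le]
    refine (hp t h.le).congr_of_eventuallyEq ?_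
    filter_upwards [Iio_mem_nhds h] with s hs
    rw [if_pos (le_of_lt hs)]
  · subst h
    rw [if_pos le_rfl]
    have hA : HasDerivWithinAt (fun t => if t ≤ 1 then p t else q t) (p' 1) (Iic 1) 1 :=
      ((hp 1 le_rfl).hasDerivWithinAt).congr (fun s hs => if_pos hs) (if_pos le_rfl)
    have hB : HasDerivWithinAt (fun t => if t ≤ 1 then p t else q t) (p' 1) (Ici 1) 1 := by
      rw [h1']
      refine ((hq 1 le_rfl).hasDerivWithinAt).congr (fun s hs => ?_) ?_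
      · rcases eq_or_lt_of_le (show (1:ℝ) ≤ s from hs) with h | h
        · subst h; rw [if_pos le_rfl, h1]
        · rw [if_neg (not_le.mpr h)]
      · rw [if_pos le_rfl, h1]
    have := hA.union hB
    rwa [Iic_union_Ici, hasDerivWithinAt_univ] at this
  · rw [if_neg (not_le.mpr h)]
    refine (hq t h.le).congr_of_eventuallyEq ?_
    filter_upwards [Ioi_mem_nhds h] with s hs
    rw [if_neg (not_le.mpr hs)]

lemma hasDerivAt_sqrt_inv (t : ℝ) (ht : 1 ≤ t) :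
    HasDerivAt (fun t => (Real.sqrt t)⁻¹) (-((Real.sqrt t)⁻¹ ^ 3) / 2) t := by
  have h0 : t ≠ 0 := by positivity
  have hs : 0 < Real.sqrt t := Real.sqrt_pos.mpr (by linarith)
  have h : HasDerivAt (fun t => (Real.sqrt t)⁻¹) (-(1 / (2 * √t)) / √t ^ 2) t :=
    (Real.hasDerivAt_sqrt h0).inv hs.ne'
  refine h.congr_deriv ?_
  field_simp

lemma hasDerivAt_gprof (t : ℝ) : HasDerivAt gprof (hprof t / 2) t := by
  have h := glue (fun t => (15 - 10 * t + 3 * t ^ 2) / 8) (fun t => (Real.sqrt t)⁻¹)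
    (fun t => (-5 + 3 * t) / 2 / 2) (fun t => -((Real.sqrt t)⁻¹ ^ 3) / 2) ?_
    (fun t ht => hasDerivAt_sqrt_inv t ht) (by norm_num) (by norm_num) t
  · have e : (if t ≤ 1 then (-5 + 3 * t) / 2 / 2 else -((Real.sqrt t)⁻¹ ^ 3) / 2) = hprof t / 2 := by
      unfold hprof; split_ifs <;> ring
    rw [e] at h
    exact h
  · intro t _
    have h1 : HasDerivAt (fun t : ℝ => (15 - 10 * t + 3 * t ^ 2) / 8)
      ((0 - 10 * 1 + 3 * (((2:ℕ) : ℝ) * t ^ (2 - 1) * 1)) / 8) t := by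
      refine HasDerivAt.div_const ?_ 8
      refine HasDerivAt.add ?_ (HasDerivAt.const_mul 3 ((hasDerivAt_id t).pow 2))
      exact HasDerivAt.sub (hasDerivAt_const t 15) (HasDerivAt.const_mul 10 (hasDerivAt_id t))
    refine h1.congr_deriv ?_
    norm_num
    ring

lemma hasDerivAt_hprof (t : ℝ) : HasDerivAt hprof (hprof2 t) t := by
  refine glue (fun t => (-5 + 3 * t) / 2) (fun t => -((Real.sqrt t)⁻¹ ^ 3))
    (fun _ => 3 / 2) (fun t => (3 / 2) * (Real.sqrt t)⁻¹ ^ 5) ?_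
    (fun t ht => ?_) (by norm_num) (by norm_num) t
  · intro t _
    have h1 : HasDerivAt (fun t : ℝ => (-5 + 3 * t) / 2) ((0 + 3 * 1) / 2) t :=
      HasDerivAt.div_const (HasDerivAt.add (hasDerivAt_const t (-5))
        (HasDerivAt.const_mul 3 (hasDerivAt_id t))) 2
    refine h1.congr_deriv ?_
    norm_num
  · have h : HasDerivAt (fun t => -((Real.sqrt t)⁻¹ ^ 3))
      (-(↑3 * (√t)⁻¹ ^ (3 - 1) * (-(√t)⁻¹ ^ 3 / 2))) t := ((hasDerivAt_sqrt_inv t ht).pow 3).neg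
    refine h.congr_deriv ?_
    norm_num
    ring

lemma hprof_cont : Continuous hprof :=
  continuous_iff_continuousAt.mpr fun t => (hasDerivAt_hprof t).continuousAt

lemma gprof_cont : Continuous gprof :=
  continuous_iff_continuousAt.mpr fun t => (hasDerivAt_gprof t).continuousAt

lemma hasFDerivAt_v (x : X) : HasFDerivAt v (hprof (‖x‖ ^ 2) • (innerSL ℝ x)) x := by
  have h := (hasDerivAt_gprof (‖x‖ ^ 2)).comp_hasFDerivAt x (hasStrictFDerivAt_norm_sq x).hasFDerivAt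
  have e : (hprof (‖x‖ ^ 2) / 2) • (2 • (innerSL ℝ x)) = hprof (‖x‖ ^ 2) • (innerSL ℝ x) := by
    ext y
    simp
    ring
  rw [e] at h
  exact h

lemma inner_e (x : X) (i : Fin 3) : inner ℝ x (e i) = x i := by
  unfold e
  rw [EuclideanSpace.inner_single_right]
  simp

lemma v_line (i : Fin 3) (x : X) : HasLineDerivAt ℝ v (b i x) x (e i) := by
  have h := (hasFDerivAt_v x).hasLineDerivAt (e i)
  have e1 : (hprof (‖x‖ ^ 2) • (innerSL ℝ x)) (e i) = b i x := by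
    simp [b, inner_e]
  rw [e1] at h
  exact h

lemma coord_hasFDerivAt (i : Fin 3) (x : X) :
    HasFDerivAt (fun x : X => x i) (EuclideanSpace.proj i : X →L[ℝ] ℝ) x :=
  (EuclideanSpace.proj i : X →L[ℝ] ℝ).hasFDerivAt

lemma hasFDerivAt_b (i : Fin 3) (x : X) :
    HasFDerivAt (b i) (hprof (‖x‖ ^ 2) • (EuclideanSpace.proj i : X →L[ℝ] ℝ) +
      x i • (hprof2 (‖x‖ ^ 2) • (2 • (innerSL ℝ x)))) x := by
  have h := (hasDerivAt_hprof (‖x‖ ^ 2)).comp_hasFDerivAt x (hasStrictFDerivAt_norm_sq x).hasFDerivAt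
  exact HasFDerivAt.mul h (coord_hasFDerivAt i x)


lemma sq_nn (x : X) : 0 ≤ ‖x‖ ^ 2 := by positivity

lemma v_eq (x : X) (hx : 1 ≤ ‖x‖) : v x = ‖x‖⁻¹ := by
  unfold v gprof
  split_ifs with h
  · have h1 : ‖x‖ = 1 := by nlinarith [norm_nonneg x]
    rw [h1]; norm_num
  · rw [Real.sqrt_sq (norm_nonneg x)]

lemma v_small (x : X) (hx : ‖x‖ ≤ 1) : v x = (15 - 10 * ‖x‖ ^ 2 + 3 * (‖x‖ ^ 2) ^ 2) / 8 := by
  unfold v gprof
  rw [if_pos (by nlinarith [norm_nonneg x])]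

lemma v_pos (x : X) : 0 < v x := by
  rcases le_total ‖x‖ 1 with h | h
  · rw [v_small x h]
    have : ‖x‖ ^ 2 ≤ 1 := by nlinarith [norm_nonneg x]
    nlinarith [sq_nonneg (‖x‖ ^ 2)]
  · rw [v_eq x h]
    have : 0 < ‖x‖ := by linarith
    positivity

lemma v_le_two (x : X) : v x ≤ 2 := by
  rcases le_total ‖x‖ 1 with h | h
  · rw [v_small x h]
    have h1 : ‖x‖ ^ 2 ≤ 1 := by nlinarith [norm_nonneg x]
    have h0 := sq_nn x
    nlinarith
  · rw [v_eq x h]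
    have : ‖x‖⁻¹ ≤ 1 := inv_le_one_of_one_le₀ h
    linarith

lemma v_le (x : X) (hx : x ≠ 0) : v x ≤ ‖x‖⁻¹ := by
  have hpos : 0 < ‖x‖ := norm_pos_iff.mpr hx
  rcases le_total ‖x‖ 1 with h | h
  · rw [v_small x h, le_inv_comm₀ (by
      have h1 : ‖x‖ ^ 2 ≤ 1 := by nlinarith [norm_nonneg x]
      nlinarith [sq_nonneg (‖x‖ ^ 2)]) hpos]
    set r := ‖x‖ with hr
    have h1 : r ^ 2 ≤ 1 := by nlinarith
    have h2 : 0 < (15 - 10 * r ^ 2 + 3 * (r ^ 2) ^ 2) / 8 := by nlinarith [sq_nonneg (r ^ 2)]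
    rw [le_inv_comm₀ hpos h2, le_inv_comm₀ h2 hpos, le_inv_comm₀ hpos h2]
    rw [inv_eq_one_div, le_div_iff₀ hpos]
    have key : 8 - (15 - 10 * r ^ 2 + 3 * (r ^ 2) ^ 2) * r = (1 - r) ^ 3 * (8 + 9 * r + 3 * r ^ 2) := by
      ring
    have hk : 0 ≤ (1 - r) ^ 3 * (8 + 9 * r + 3 * r ^ 2) := by
      have : 0 ≤ 1 - r := by linarith
      positivity
    linarith
  · rw [v_eq x h]

lemma hprof_abs (t : ℝ) (ht : 0 ≤ t) : |hprof t| ≤ 5 / 2 := by
  unfold hprof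
  split_ifs with h
  · rw [abs_le]; constructor <;> linarith
  · have h1 : 1 ≤ Real.sqrt t := by
      rw [Real.one_le_sqrt]; linarith
    have h2 : (Real.sqrt t)⁻¹ ≤ 1 := inv_le_one_of_one_le₀ h1
    have h3 : 0 ≤ (Real.sqrt t)⁻¹ := by positivity
    have h4 : (Real.sqrt t)⁻¹ ^ 3 ≤ 1 := pow_le_one₀ h3 h2
    rw [abs_neg, abs_of_nonneg (by positivity)]
    linarith

lemma hprof_abs_mul (x : X) : |hprof (‖x‖ ^ 2)| * ‖x‖ ≤ 3 := by
  rcases le_total ‖x‖ 1 with h | h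
  · have := hprof_abs (‖x‖ ^ 2) (sq_nn x)
    nlinarith [norm_nonneg x, abs_nonneg (hprof (‖x‖ ^ 2))]
  · unfold hprof
    split_ifs with h'
    · have h1 : ‖x‖ = 1 := by nlinarith [norm_nonneg x]
      rw [h1]; norm_num
    · rw [Real.sqrt_sq (norm_nonneg x), abs_neg, abs_of_nonneg (by positivity)]
      have hpos : 0 < ‖x‖ := by linarith
      have : ‖x‖⁻¹ ^ 3 * ‖x‖ = ‖x‖⁻¹ ^ 2 := by field_simp
      rw [this]
      have h2 : ‖x‖⁻¹ ≤ 1 := inv_le_one_of_one_le₀ h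
      have h3 : 0 ≤ ‖x‖⁻¹ := by positivity
      have h4 : ‖x‖⁻¹ ^ 2 ≤ 1 := pow_le_one₀ h3 h2
      linarith

lemma hprof2_abs_mul (x : X) : |hprof2 (‖x‖ ^ 2)| * ‖x‖ ^ 2 ≤ 3 / 2 := by
  unfold hprof2
  split_ifs with h
  · rw [abs_of_nonneg (by norm_num)]; nlinarith
  · rw [Real.sqrt_sq (norm_nonneg x), abs_of_nonneg (by positivity)]
    have h1 : 1 < ‖x‖ := by
      by_contra hc
      apply h
      nlinarith [norm_nonneg x]
    have : 3 / 2 * ‖x‖⁻¹ ^ 5 * ‖x‖ ^ 2 = 3 / 2 * ‖x‖⁻¹ ^ 3 := by field_simp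
    rw [this]
    have h2 : ‖x‖⁻¹ ≤ 1 := inv_le_one_of_one_le₀ h1.le
    have h3 : 0 ≤ ‖x‖⁻¹ := by positivity
    have h4 : ‖x‖⁻¹ ^ 3 ≤ 1 := pow_le_one₀ h3 h2
    linarith

lemma coord_le (x : X) (i : Fin 3) : |x i| ≤ ‖x‖ := by
  rw [← Real.norm_eq_abs]; exact PiLp.norm_apply_le x i

lemma b_abs (i : Fin 3) (x : X) : |b i x| ≤ 3 := by
  unfold b
  rw [abs_mul]
  calc _ ≤ |hprof (‖x‖ ^ 2)| * ‖x‖ := by
        gcongr; exact coord_le x i
    _ ≤ 3 := hprof_abs_mul x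

lemma v_lip : LipschitzWith 3 v := by
  refine lipschitzWith_of_nnnorm_fderiv_le (𝕜 := ℝ) (fun x => (hasFDerivAt_v x).differentiableAt) (fun x => ?_)
  rw [(hasFDerivAt_v x).fderiv, ← NNReal.coe_le_coe, coe_nnnorm, norm_smul, innerSL_apply_norm]
  exact hprof_abs_mul x

lemma b_lip (i : Fin 3) : LipschitzWith 6 (b i) := by
  refine lipschitzWith_of_nnnorm_fderiv_le (𝕜 := ℝ) (fun x => (hasFDerivAt_b i x).differentiableAt) (fun x => ?_)
  rw [(hasFDerivAt_b i x).fderiv, ← NNReal.coe_le_coe, coe_nnnorm]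
  have h1 : ‖(EuclideanSpace.proj i : X →L[ℝ] ℝ)‖ ≤ 1 := by
    refine ContinuousLinearMap.opNorm_le_bound _ zero_le_one (fun y => ?_)
    rw [one_mul]
    exact coord_le y i
  refine (norm_add_le _ _).trans ?_
  rw [norm_smul, norm_smul, norm_smul]
  have h2 : ‖(2 • (innerSL ℝ x) : X →L[ℝ] ℝ)‖ ≤ 2 * ‖x‖ := by
    rw [two_smul]
    refine (norm_add_le _ _).trans ?_
    rw [innerSL_apply_norm]; linarith
  have h3 := hprof_abs (‖x‖ ^ 2) (sq_nn x)
  have h4 := hprof2_abs_mul x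
  have h5 := coord_le x i
  rw [Real.norm_eq_abs, Real.norm_eq_abs, Real.norm_eq_abs]
  have h6 : |hprof (‖x‖ ^ 2)| * ‖(EuclideanSpace.proj i : X →L[ℝ] ℝ)‖ ≤ 5 / 2 * 1 := by
    gcongr
  have h7 : |x i| * (|hprof2 (‖x‖ ^ 2)| * ‖(2 • (innerSL ℝ x) : X →L[ℝ] ℝ)‖) ≤
      ‖x‖ * (|hprof2 (‖x‖ ^ 2)| * (2 * ‖x‖)) := by gcongr
  have h8 : ‖x‖ * (|hprof2 (‖x‖ ^ 2)| * (2 * ‖x‖)) = 2 * (|hprof2 (‖x‖ ^ 2)| * ‖x‖ ^ 2) := by ring
  have : ((6 : NNReal) : ℝ) = 6 := rfl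
  rw [this]
  linarith

lemma b_cont (i : Fin 3) : Continuous (b i) := (b_lip i).continuous

lemma lineDeriv_b (i : Fin 3) (x : X) : lineDeriv ℝ (b i) x (e i) =
    hprof (‖x‖ ^ 2) + 2 * hprof2 (‖x‖ ^ 2) * (x i) ^ 2 := by
  rw [((hasFDerivAt_b i x).hasLineDerivAt (e i)).lineDeriv]
  have h1 : (EuclideanSpace.proj i : X →L[ℝ] ℝ) (e i) = 1 := by simp [e]
  have h2 : (innerSL ℝ x) (e i) = x i := by rw [innerSL_apply_apply, inner_e]
  simp only [add_apply, smul_apply, h1, h2]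
  simp
  ring

lemma b_div (x : X) : ∑ i, lineDeriv ℝ (b i) x (e i) = -(4 * Real.pi) * m x := by
  simp_rw [lineDeriv_b]
  rw [Finset.sum_add_distrib, ← Finset.mul_sum, ← EuclideanSpace.real_norm_sq_eq]
  simp only [Finset.sum_const, Finset.card_univ, Fintype.card_fin, nsmul_eq_mul]
  unfold m
  have hpi : Real.pi ≠ 0 := Real.pi_ne_zero
  rcases le_total (‖x‖ ^ 2) 1 with h | h
  · rw [max_eq_left (by linarith)]
    unfold hprof hprof2
    rw [if_pos h, if_pos h]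
    field_simp
    push_cast
    ring
  · rw [max_eq_right (by linarith)]
    unfold hprof hprof2
    split_ifs with h'
    · have h1 : ‖x‖ ^ 2 = 1 := le_antisymm h' h
      rw [h1]; norm_num
    · rw [Real.sqrt_sq (norm_nonneg x)]
      have h1 : 0 < ‖x‖ := by
        by_contra hc
        have : ‖x‖ = 0 := le_antisymm (not_lt.mp hc) (norm_nonneg x)
        rw [this] at h; norm_num at h
      field_simp
      push_cast
      ring

lemma lineDeriv_neg_e (ψ : X → ℝ) (x : X) (i : Fin 3) :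
    lineDeriv ℝ ψ x (-(e i)) = - lineDeriv ℝ ψ x (e i) := lineDeriv_neg

/-- a Lipschitz function has integrable line derivatives against compactly supported ones -/
lemma lineDeriv_bdd {f : X → ℝ} {C : NNReal} (hf : LipschitzWith C f) (x : X) (i : Fin 3) :
    |lineDeriv ℝ f x (e i)| ≤ C := by
  have h := norm_lineDeriv_le_of_lipschitz ℝ (x₀ := x) (v := e i) hf
  have h1 : ‖e i‖ = 1 := by simp [e]
  rwa [h1, mul_one, Real.norm_eq_abs] at h

lemma lineDeriv_meas {f : X → ℝ} (hf : Continuous f) (i : Fin 3) :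
    Measurable (fun x => lineDeriv ℝ f x (e i)) := measurable_lineDeriv hf

lemma lineDeriv_zero_of_not_mem {f : X → ℝ} {x : X} (hx : x ∉ tsupport f) (i : Fin 3) :
    lineDeriv ℝ f x (e i) = 0 := by
  have h : f =ᶠ[𝓝 x] (fun _ => (0:ℝ)) := notMem_tsupport_iff_eventuallyEq.mp hx
  rw [h.lineDeriv_eq]
  simp [lineDeriv]

lemma integrable_of_bdd_supp {f : X → ℝ} (hm : Measurable f) {K : Set X} (hK : IsCompact K)
    {C : ℝ} (hb : ∀ x, |f x| ≤ C) (h0 : ∀ x, x ∉ K → f x = 0) : Integrable f := by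
  have h1 : IntegrableOn f K :=
    Measure.integrableOn_of_bounded hK.measure_lt_top.ne hm.aestronglyMeasurable
      (M := C) (ae_of_all _ fun x => by rw [Real.norm_eq_abs]; exact hb x)
  rwa [integrableOn_iff_integrable_of_support_subset] at h1
  intro x hx
  by_contra h
  exact hx (h0 x h)

lemma integrable_lineDeriv_test {ψ : X → ℝ} (h : Test ψ) (i : Fin 3) :
    Integrable (fun x => lineDeriv ℝ ψ x (e i)) := by
  obtain ⟨⟨C, hC⟩, h2⟩ := h
  exact integrable_of_bdd_supp (lineDeriv_meas hC.continuous i) h2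
    (fun x => lineDeriv_bdd hC x i) (fun x hx => lineDeriv_zero_of_not_mem hx i)

lemma integrable_mul_lineDeriv_test {f ψ : X → ℝ} (hf : Measurable f) {C : ℝ} (hb : ∀ x, |f x| ≤ C)
    (h : Test ψ) (i : Fin 3) : Integrable (fun x => f x * lineDeriv ℝ ψ x (e i)) := by
  obtain ⟨⟨D, hD⟩, h2⟩ := h
  refine integrable_of_bdd_supp (C := |C| * D) (hf.mul (lineDeriv_meas hD.continuous i)) h2 ?_ ?_
  · intro x
    rw [abs_mul]
    exact mul_le_mul ((hb x).trans (le_abs_self C)) (lineDeriv_bdd hD x i) (abs_nonneg _)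
      (abs_nonneg _)
  · intro x hx
    rw [lineDeriv_zero_of_not_mem hx i, mul_zero]

/-- Green's formula for `v` -/
lemma green_v {ψ : X → ℝ} (hψ : Test ψ) :
    ∫ x, ∑ i, b i x * lineDeriv ℝ ψ x (e i) = 4 * Real.pi * ∫ x, m x * ψ x := by
  have hψ' := hψ
  obtain ⟨⟨D, hD⟩, h2⟩ := hψ'
  have h1 : ∀ i, ∫ x, b i x * lineDeriv ℝ ψ x (e i) = - ∫ x, lineDeriv ℝ (b i) x (e i) * ψ x := by
    intro i
    have := LipschitzWith.integral_lineDeriv_mul_eq (μ := volume) (b_lip i) hD h2 (e i)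
    rw [this, ← integral_neg]
    refine integral_congr_ae (ae_of_all _ fun x => ?_)
    simp only
    rw [lineDeriv_neg_e]; ring
  rw [integral_finsetSum _ (fun i _ => integrable_mul_lineDeriv_test (b_cont i).measurable (b_abs i) hψ i)]
  simp_rw [h1]
  rw [Finset.sum_neg_distrib, ← integral_finsetSum]
  · rw [← integral_neg, ← integral_const_mul]
    refine integral_congr_ae (ae_of_all _ fun x => ?_)
    simp only
    rw [← Finset.sum_mul, b_div]; ring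
  · intro i _
    obtain ⟨M, hM⟩ := hψ.cont.bounded_above_of_compact_support h2
    refine integrable_of_bdd_supp (C := 6 * M) ((lineDeriv_meas (b_cont i) i).mul hψ.cont.measurable) h2 ?_ ?_
    · intro x
      rw [abs_mul]
      have h6 : |lineDeriv ℝ (b i) x (e i)| ≤ 6 := lineDeriv_bdd (b_lip i) x i
      have hM' : |ψ x| ≤ M := hM x
      have : 0 ≤ |ψ x| := abs_nonneg _
      nlinarith [abs_nonneg (lineDeriv ℝ (b i) x (e i))]
    · intro x hx
      rw [image_eq_zero_of_notMem_tsupport hx, mul_zero]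

end

end Pool.Agent.Helper96.TF
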