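import Pool.Agent.Helper96.TF.Field

set_option autoImplicit false

open MeasureTheory Set Filter Topology

namespace Pool.Agent.Helper96.TF

noncomputable section

/-- the singular part of the Coulomb kernel -/
def kin (y : X) : ℝ := (Metric.ball (0 : X) 1).indicator (fun y => ‖y‖⁻¹) y

lemma kin_nonneg (y : X) : 0 ≤ kin y := indicator_nonneg (fun _ _ => by positivity) y

lemma kin_meas : Measurable kin :=
  (measurable_norm.inv).indicator Metric.isOpen_ball.measurableSet

lemma kin_int : Integrable kin := by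
  unfold kin
  rw [show (fun y : X => (Metric.ball (0 : X) 1).indicator (fun y => ‖y‖⁻¹) y) =
    (Metric.ball (0 : X) 1).indicator (fun y => ‖y‖⁻¹) from rfl,
    integrable_indicator_iff Metric.isOpen_ball.measurableSet]
  have h := (integrableOn_fun_norm_addHaar (μ := (volume : Measure X)) (f := fun r : ℝ => r⁻¹) (r := 1)).mpr ?_
  · exact h
  · have h2 : IntegrableOn (fun y : ℝ => y) (Ioo 0 1) :=
      (continuous_id.integrableOn_Icc (a := (0:ℝ)) (b := 1)).mono_set Ioo_subset_Icc_self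
    refine h2.congr_fun (fun y hy => ?_) measurableSet_Ioo
    have hy0 : y ≠ 0 := hy.1.ne'
    simp
    field_simp

/-- a bound for potentials -/
def c1 : ℝ := ∫ y, kin y

lemma c1_nonneg : 0 ≤ c1 := integral_nonneg kin_nonneg

lemma pot_pointwise {τ : X → ℝ} {M : ℝ} (hb : ∀ x, |τ x| ≤ M) (x y : X) :
    |τ y| / ‖x - y‖ ≤ M * kin (x - y) + |τ y| := by
  have hM : 0 ≤ M := (abs_nonneg _).trans (hb 0)
  by_cases h : ‖x - y‖ < 1
  · have : kin (x - y) = ‖x - y‖⁻¹ := by
      unfold kin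
      rw [indicator_of_mem (by rwa [Metric.mem_ball, dist_zero_right])]
    rw [this, div_eq_mul_inv]
    have h1 : |τ y| * ‖x - y‖⁻¹ ≤ M * ‖x - y‖⁻¹ := by
      gcongr
      exact hb y
    linarith [abs_nonneg (τ y)]
  · rw [not_lt] at h
    have h1 : |τ y| / ‖x - y‖ ≤ |τ y| := div_le_self (abs_nonneg _) h
    have := mul_nonneg hM (kin_nonneg (x - y))
    linarith

lemma pot_int {τ : X → ℝ} {M : ℝ} (hm : Measurable τ) (hb : ∀ x, |τ x| ≤ M) (hi : Integrable τ)
    (x : X) : Integrable (fun y => τ y / ‖x - y‖) := by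
  have h1 : Integrable (fun y => M * kin (x - y) + |τ y|) :=
    ((kin_int.comp_sub_left x).const_mul M).add hi.abs
  refine h1.mono' (hm.div (by fun_prop)).aestronglyMeasurable (ae_of_all _ fun y => ?_)
  rw [Real.norm_eq_abs, abs_div, abs_of_nonneg (norm_nonneg _)]
  exact pot_pointwise hb x y

lemma pot_bound {τ : X → ℝ} {M : ℝ} (hm : Measurable τ) (hb : ∀ x, |τ x| ≤ M) (hi : Integrable τ)
    (x : X) : ∫ y, |τ y| / ‖x - y‖ ≤ M * c1 + ∫ y, |τ y| := by
  have h1 : Integrable (fun y => M * kin (x - y) + |τ y|) :=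
    ((kin_int.comp_sub_left x).const_mul M).add hi.abs
  have h2 : Integrable (fun y => |τ y| / ‖x - y‖) :=
    pot_int (τ := fun y => |τ y|) (M := M) hm.abs (fun x => by rw [abs_abs]; exact hb x) hi.abs x
  refine (integral_mono h2 h1 (pot_pointwise hb x)).trans ?_
  rw [integral_add ((kin_int.comp_sub_left x).const_mul M) hi.abs, integral_const_mul,
    integral_sub_left_eq_self]
  rfl

lemma prod_int {ρ τ : X → ℝ} {M : ℝ} (hρm : Measurable ρ) (hρi : Integrable ρ)
    (hm : Measurable τ) (hb : ∀ x, |τ x| ≤ M) (hi : Integrable τ) :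
    Integrable (fun p : X × X => ρ p.1 * τ p.2 / ‖p.1 - p.2‖) (volume.prod volume) := by
  have hmeas : Measurable (fun p : X × X => ρ p.1 * τ p.2 / ‖p.1 - p.2‖) :=
    ((hρm.comp measurable_fst).mul (hm.comp measurable_snd)).div (by fun_prop)
  rw [integrable_prod_iff hmeas.aestronglyMeasurable]
  refine ⟨ae_of_all _ fun x => ?_, ?_⟩
  · have := (pot_int hm hb hi x).const_mul (ρ x)
    refine this.congr (ae_of_all _ fun y => ?_)
    simp only; ring
  · have h1 : Integrable (fun x => |ρ x| * (M * c1 + ∫ y, |τ y|)) := hρi.abs.mul_const _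
    refine h1.mono' hmeas.norm.aestronglyMeasurable.integral_prod_right' (ae_of_all _ fun x => ?_)
    have h2 : ∫ y, ‖ρ x * τ y / ‖x - y‖‖ = |ρ x| * ∫ y, |τ y| / ‖x - y‖ := by
      rw [← integral_const_mul]
      refine integral_congr_ae (ae_of_all _ fun y => ?_)
      simp only
      rw [Real.norm_eq_abs, abs_div, abs_mul, abs_of_nonneg (norm_nonneg _)]; ring
    simp only
    rw [h2, Real.norm_eq_abs, abs_mul, abs_abs, abs_of_nonneg
      (integral_nonneg fun y => by positivity)]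
    exact mul_le_mul_of_nonneg_left (pot_bound hm hb hi x) (abs_nonneg _)

/-- bounded measurable densities of compact support -/
structure BC (ρ : X → ℝ) : Prop where
  meas : Measurable ρ
  bdd : ∃ M, 0 ≤ M ∧ ∀ x, |ρ x| ≤ M
  supp : ∃ R, 0 < R ∧ ∀ x, R ≤ ‖x‖ → ρ x = 0

lemma BC.mul {ρ f : X → ℝ} (h : BC ρ) (hf : Measurable f) {M : ℝ} (hM : ∀ x, |f x| ≤ M) :
    BC (fun x => ρ x * f x) := by
  obtain ⟨N, hN, hb⟩ := h.bdd
  obtain ⟨R, hR, hs⟩ := h.supp
  refine ⟨h.meas.mul hf, ⟨N * |M|, by positivity, fun x => ?_⟩, ⟨R, hR, fun x hx => ?_⟩⟩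
  · rw [abs_mul]
    exact mul_le_mul (hb x) ((hM x).trans (le_abs_self M)) (abs_nonneg _) hN
  · rw [hs x hx, zero_mul]

lemma BC.int {ρ : X → ℝ} (h : BC ρ) : Integrable ρ := by
  obtain ⟨N, hN, hb⟩ := h.bdd
  obtain ⟨R, hR, hs⟩ := h.supp
  refine integrable_of_bdd_supp (C := N) h.meas (isCompact_closedBall (0 : X) R) hb ?_
  intro x hx
  rw [Metric.mem_closedBall, dist_zero_right, not_le] at hx
  exact hs x hx.le

lemma BC.add {ρ τ : X → ℝ} (h : BC ρ) (h' : BC τ) : BC (fun x => ρ x + τ x) := by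
  obtain ⟨N, hN, hb⟩ := h.bdd
  obtain ⟨R, hR, hs⟩ := h.supp
  obtain ⟨N', hN', hb'⟩ := h'.bdd
  obtain ⟨R', hR', hs'⟩ := h'.supp
  refine ⟨h.meas.add h'.meas, ⟨N + N', by positivity, fun x => ?_⟩,
    ⟨max R R', lt_max_of_lt_left hR, fun x hx => ?_⟩⟩
  · exact (abs_add_le _ _).trans (add_le_add (hb x) (hb' x))
  · rw [hs x ((le_max_left _ _).trans hx), hs' x ((le_max_right _ _).trans hx), zero_add]

lemma BC.const_mul {ρ : X → ℝ} (h : BC ρ) (c : ℝ) : BC (fun x => c * ρ x) := by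
  obtain ⟨N, hN, hb⟩ := h.bdd
  obtain ⟨R, hR, hs⟩ := h.supp
  refine ⟨h.meas.const_mul c, ⟨|c| * N, by positivity, fun x => ?_⟩, ⟨R, hR, fun x hx => ?_⟩⟩
  · rw [abs_mul]; exact mul_le_mul_of_nonneg_left (hb x) (abs_nonneg _)
  · rw [hs x hx, mul_zero]

lemma BC.of_cont {ρ : X → ℝ} (hc : Continuous ρ) (hs : HasCompactSupport ρ) : BC ρ := by
  obtain ⟨M, hM⟩ := hc.bounded_above_of_compact_support hs
  obtain ⟨R, hR, hsR⟩ := exists_radius hs
  exact ⟨hc.measurable, ⟨|M|, abs_nonneg _, fun x => (hM x).trans (le_abs_self M)⟩,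
    ⟨R, hR, fun x hx => image_eq_zero_of_notMem_tsupport (hsR x hx)⟩⟩

lemma Fld.bc {σ w : X → ℝ} (h : Fld σ w) : BC σ := BC.of_cont h.sc h.ss

lemma BC.pot {ρ : X → ℝ} (h : BC ρ) (x : X) : Integrable (fun y => ρ y / ‖x - y‖) := by
  obtain ⟨N, hN, hb⟩ := h.bdd
  exact pot_int h.meas hb h.int x

lemma BC.prod {ρ τ : X → ℝ} (h : BC ρ) (h' : BC τ) :
    Integrable (fun p : X × X => ρ p.1 * τ p.2 / ‖p.1 - p.2‖) (volume.prod volume) := by
  obtain ⟨N, hN, hb⟩ := h'.bdd
  exact prod_int h.meas h.int h'.meas hb h'.int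

/-! ### closure properties of fields -/

lemma Fld.add {σ w σ' w' : X → ℝ} (h : Fld σ w) (h' : Fld σ' w') :
    Fld (fun x => σ x + σ' x) (fun x => w x + w' x) := by
  obtain ⟨L, hL⟩ := h.wl
  obtain ⟨L', hL'⟩ := h'.wl
  obtain ⟨C, hC⟩ := h.wd
  obtain ⟨C', hC'⟩ := h'.wd
  have hld : ∀ x i, lineDeriv ℝ (fun x => w x + w' x) x (e i) =
      lineDeriv ℝ w x (e i) + lineDeriv ℝ w' x (e i) := fun x i => (ld_add (h.der x i) (h'.der x i)).lineDeriv
  refine ⟨h.sc.add h'.sc, h.ss.add h'.ss, ⟨L + L', hL.add hL'⟩, ⟨C + C', fun x => ?_⟩,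
    fun x i => (ld_add (h.der x i) (h'.der x i)).lineDifferentiableAt, fun i => ?_, fun ψ hψ => ?_, fun x => ?_⟩
  · have h1 := hC x
    have h2 := hC' x
    have h3 : |w x + w' x| * ‖x‖ ≤ (|w x| + |w' x|) * ‖x‖ := by
      gcongr; exact abs_add_le _ _
    linarith
  · simp_rw [hld]
    exact (h.dc i).add (h'.dc i)
  · have h1 : gg (fun x => w x + w' x) ψ = fun x => gg w ψ x + gg w' ψ x := by
      funext x
      unfold gg
      rw [← Finset.sum_add_distrib]
      refine Finset.sum_congr rfl fun i _ => ?_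
      rw [hld]; ring
    have h2 : (∫ x, (σ x + σ' x) * ψ x) = (∫ x, σ x * ψ x) + ∫ x, σ' x * ψ x := by
      obtain ⟨N, hN, hb⟩ := hψ.bdd
      rw [← integral_add (h.bc.mul hψ.cont.measurable hb).int (h'.bc.mul hψ.cont.measurable hb).int]
      refine integral_congr_ae (ae_of_all _ fun x => ?_)
      simp only; ring
    rw [h1, integral_add (gg_integrable hL hψ) (gg_integrable hL' hψ), h.green ψ hψ, h'.green ψ hψ, h2]
    ring
  · rw [← h.newton x, ← h'.newton x, ← integral_add (h.bc.pot x) (h'.bc.pot x)]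
    refine integral_congr_ae (ae_of_all _ fun y => ?_)
    simp only; ring

lemma Fld.const_mul {σ w : X → ℝ} (h : Fld σ w) (c : ℝ) :
    Fld (fun x => c * σ x) (fun x => c * w x) := by
  obtain ⟨L, hL⟩ := h.wl
  obtain ⟨C, hC⟩ := h.wd
  have hld : ∀ x i, lineDeriv ℝ (fun x => c * w x) x (e i) =
      c * lineDeriv ℝ w x (e i) := fun x i => (ld_const_mul c (h.der x i)).lineDeriv
  have hLc : LipschitzWith (‖c‖₊ * L) (fun x => c * w x) := by
    refine LipschitzWith.of_dist_le_mul fun x y => ?_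
    have h1 := hL.dist_le_mul x y
    rw [Real.dist_eq] at h1 ⊢
    rw [← mul_sub, abs_mul, NNReal.coe_mul, coe_nnnorm, Real.norm_eq_abs, mul_assoc]
    exact mul_le_mul_of_nonneg_left h1 (abs_nonneg _)
  refine ⟨h.sc.const_mul c, h.ss.mul_left (f := fun _ => c), ⟨_, hLc⟩,
    ⟨|c| * C, fun x => ?_⟩,
    fun x i => (ld_const_mul c (h.der x i)).lineDifferentiableAt, fun i => ?_, fun ψ hψ => ?_, fun x => ?_⟩
  · rw [abs_mul, mul_assoc]
    exact mul_le_mul_of_nonneg_left (hC x) (abs_nonneg _)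
  · simp_rw [hld]
    exact (h.dc i).const_mul c
  · have h1 : gg (fun x => c * w x) ψ = fun x => c * gg w ψ x := by
      funext x
      unfold gg
      rw [Finset.mul_sum]
      refine Finset.sum_congr rfl fun i _ => ?_
      rw [hld]; ring
    have h2 : (∫ x, (c * σ x) * ψ x) = c * (∫ x, σ x * ψ x) := by
      rw [← integral_const_mul]
      refine integral_congr_ae (ae_of_all _ fun x => ?_)
      simp only; ring
    rw [h1, integral_const_mul, h.green ψ hψ, h2]
    ring
  · rw [← h.newton x, ← integral_const_mul]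
    refine integral_congr_ae (ae_of_all _ fun y => ?_)
    simp only; ring

lemma Fld.zero : Fld (fun _ => 0) (fun _ => 0) := by
  have hld : ∀ x i, HasLineDerivAt ℝ (fun _ : X => (0:ℝ)) 0 x (e i) := fun x i =>
    hasDerivAt_const (0:ℝ) (0:ℝ)
  refine ⟨continuous_const, HasCompactSupport.zero, ⟨0, LipschitzWith.const 0⟩, ⟨0, fun x => by simp⟩,
    fun x i => (hld x i).lineDifferentiableAt, fun i => ?_, fun ψ hψ => ?_, fun x => by simp⟩
  · simp_rw [fun x => (hld x i).lineDeriv]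
    exact continuous_const
  · have h1 : gg (fun _ => 0) ψ = fun _ => 0 := by
      funext x
      unfold gg
      exact Finset.sum_eq_zero fun i _ => by rw [(hld x i).lineDeriv, zero_mul]
    rw [h1]; simp

lemma Fld.sub {σ w σ' w' : X → ℝ} (h : Fld σ w) (h' : Fld σ' w') :
    Fld (fun x => σ x - σ' x) (fun x => w x - w' x) := by
  have h1 := h.add (h'.const_mul (-1))
  have e1 : (fun x => σ x + -1 * σ' x) = fun x => σ x - σ' x := by funext x; ring
  have e2 : (fun x => w x + -1 * w' x) = fun x => w x - w' x := by funext x; ring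
  rwa [e1, e2] at h1

lemma Fld.sum {ι : Type} (s : Finset ι) {σ w : ι → X → ℝ} (h : ∀ i, Fld (σ i) (w i)) :
    Fld (fun x => ∑ i ∈ s, σ i x) (fun x => ∑ i ∈ s, w i x) := by
  classical
  induction s using Finset.induction_on with
  | empty => simpa using Fld.zero
  | insert a s ha ih =>
    simp_rw [Finset.sum_insert ha]
    exact (h a).add ih

end

end Pool.Agent.Helper96.TF
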