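import Mathlib

set_option autoImplicit false

open MeasureTheory

namespace Pool.Agent.Helper96.TF

noncomputable section

/-- three dimensional Euclidean space -/
abbrev X : Type := EuclideanSpace ℝ (Fin 3)

/-- the nuclear attraction `V(x) = ∑ z_i / |x - R_i|` -/
def Vp {ι : Type} [Fintype ι] (z : ι → ℝ) (R : ι → X) (x : X) : ℝ := ∑ i, z i / ‖x - R i‖

/-- the nuclear repulsion `U = ∑_{i<j} z_i z_j / |R_i - R_j|`, written as half the sum over `i ≠ j` -/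
def Urep {ι : Type} [Fintype ι] (z : ι → ℝ) (R : ι → X) : ℝ :=
  open Classical in (1 / 2) * ∑ i, ∑ j, if i = j then 0 else z i * z j / ‖R i - R j‖

/-- the Coulomb self-energy `D(ρ,ρ)` of a density -/
def Dself (ρ : X → ℝ) : ℝ := (1 / 2) * ∫ x, ∫ y, ρ x * ρ y / ‖x - y‖

/-- the Thomas-Fermi functional -/
def energy {ι : Type} [Fintype ι] (γ : ℝ) (z : ι → ℝ) (R : ι → X) (ρ : X → ℝ) : ℝ :=
  (3 / 5) * γ * (∫ x, ρ x ^ (5 / 3 : ℝ)) - (∫ x, Vp z R x * ρ x) + Dself ρ + Urep z R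

/-- the admissible densities of total mass `Z` -/
def Adm (Z : ℝ) (ρ : X → ℝ) : Prop :=
  Measurable ρ ∧ (∀ x, 0 ≤ ρ x) ∧ Integrable ρ ∧ Integrable (fun x => ρ x ^ (5 / 3 : ℝ)) ∧
    ∫ x, ρ x = Z

/-- the values of the functional on the neutral admissible densities -/
def energySet {ι : Type} [Fintype ι] (γ : ℝ) (z : ι → ℝ) (R : ι → X) : Set ℝ :=
  {e | ∃ ρ, Adm (∑ i, z i) ρ ∧ e = energy γ z R ρ}

/-- the Thomas-Fermi energy of a (neutral) configuration -/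
def TFE {ι : Type} [Fintype ι] (γ : ℝ) (z : ι → ℝ) (R : ι → X) : ℝ := sInf (energySet γ z R)

/-! ### tools: test functions and the dual functional -/

/-- coordinate directions -/
def e (i : Fin 3) : X := EuclideanSpace.single i (1 : ℝ)

/-- Lipschitz functions with compact support -/
def Test (φ : X → ℝ) : Prop := (∃ C, LipschitzWith C φ) ∧ HasCompactSupport φ

/-- scalar product of the gradients -/
def gg (φ ψ : X → ℝ) (x : X) : ℝ := ∑ i, lineDeriv ℝ φ x (e i) * lineDeriv ℝ ψ x (e i)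

/-- `(1/8π) ∫ |∇φ|²` -/
def Dir (φ : X → ℝ) : ℝ := (1 / (8 * Real.pi)) * ∫ x, gg φ φ x

/-- `(2/5) κ ∫ φ_+^{5/2}` -/
def Pot (κ : ℝ) (φ : X → ℝ) : ℝ := (2 / 5) * κ * ∫ x, (max (φ x) 0) ^ (5 / 2 : ℝ)

/-- the dual functional -/
def J (κ : ℝ) (ν φ : X → ℝ) : ℝ := (∫ x, φ x * ν x) - Dir φ - Pot κ φ

/-- its supremum over the test functions -/
def T (κ : ℝ) (ν : X → ℝ) : ℝ := sSup {t | ∃ φ, Test φ ∧ t = J κ ν φ}

/-- the profile of the smeared unit charge -/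
def m (x : X) : ℝ := (15 / (8 * Real.pi)) * max (1 - ‖x‖ ^ 2) 0

/-- radial profile of its potential, as a function of `|x|²` -/
def gprof (t : ℝ) : ℝ := if t ≤ 1 then (15 - 10 * t + 3 * t ^ 2) / 8 else (Real.sqrt t)⁻¹

/-- potential of the smeared unit charge -/
def v (x : X) : ℝ := gprof (‖x‖ ^ 2)

/-- the unit charge smeared at scale `ε` -/
def mE (ε : ℝ) (x : X) : ℝ := ε⁻¹ ^ 3 * m (ε⁻¹ • x)

/-- its potential -/
def vE (ε : ℝ) (x : X) : ℝ := ε⁻¹ * v (ε⁻¹ • x)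

/-- smeared nuclei -/
def nuS {ι : Type} [Fintype ι] (z : ι → ℝ) (R : ι → X) (ε : ℝ) (x : X) : ℝ :=
  ∑ i, z i * mE ε (x - R i)

/-- potential of the smeared nuclei -/
def VS {ι : Type} [Fintype ι] (z : ι → ℝ) (R : ι → X) (ε : ℝ) (x : X) : ℝ :=
  ∑ i, z i * vE ε (x - R i)

/-- self energy of the smeared nuclei -/
def selfE {ι : Type} [Fintype ι] (z : ι → ℝ) (ε : ℝ) : ℝ :=
  (1 / 2) * (∫ x, vE ε x * mE ε x) * ∑ i, z i ^ 2

end

end Pool.Agent.Helper96.TF
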