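import Pool.Agent.Helper96.TF.Strong2

set_option autoImplicit false

open MeasureTheory Set Filter Topology

namespace Pool.Agent.Helper96.TF

noncomputable section

/-- smearing a density changes the functional arbitrarily little -/
lemma Hmol_holds {γ : ℝ} (hγ : 0 < γ) {ν V : X → ℝ} (hF : Fld ν V) :
    ∀ ρ, BC ρ → (∀ x, 0 ≤ ρ x) → ∀ τ : ℝ, 0 < τ → ∃ ρ' u', Fld ρ' u' ∧ (∀ x, 0 ≤ ρ' x) ∧
      (∫ x, ρ' x = ∫ x, ρ x) ∧ Gf γ ν V ρ' ≤ Gf γ ν V ρ + τ := by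
  intro ρ hρ h0 τ hτ
  obtain ⟨L, hL⟩ := hF.wl
  obtain ⟨M, _, hM⟩ := hF.bdd
  set m1 := ∫ x, |ρ x| with hm1
  have hm0 : 0 ≤ m1 := integral_nonneg fun x => abs_nonneg _
  set ε := τ / (L * m1 + 1) with hε
  have hε0 : 0 < ε := by positivity
  refine ⟨mix (mE ε) ρ, mix (vE ε) ρ, (fldE hε0).mixed hρ, mix_nonneg hε0 h0, mix_mass hε0 hρ, ?_⟩
  have h1 := jensen hε0 hρ h0
  have h2 := Dself_mix hε0 hρ h0
  have h3 := mix_close hε0 hρ hL hM
  rw [← hm1] at h3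
  have h4 : (L : ℝ) * ε * m1 ≤ τ := by
    rw [hε]
    have : (L : ℝ) * (τ / (L * m1 + 1)) * m1 = τ * ((L * m1) / (L * m1 + 1)) := by ring
    rw [this]
    have h5 : ((L : ℝ) * m1) / (L * m1 + 1) ≤ 1 := by
      rw [div_le_one (by positivity)]; linarith
    calc τ * ((L * m1) / (L * m1 + 1)) ≤ τ * 1 := mul_le_mul_of_nonneg_left h5 hτ.le
      _ = τ := mul_one τ
  have h6 := (abs_le.mp h3).1
  unfold Gf
  have h7 : 0 ≤ (3 / 5) * γ := by positivity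
  have h8 := mul_le_mul_of_nonneg_left h1 h7
  linarith

/-- the energy is the limit of the dual values -/
theorem dual_lim {γ : ℝ} (hγ : 0 < γ) {ι : Type} [Fintype ι] (z : ι → ℝ) (R : ι → X)
    (hz : ∀ i, 0 ≤ z i) (hR : Function.Injective R) :
    Tendsto (fun ε => T (γ ^ (-(3 / 2) : ℝ)) (nuS z R ε) - selfE z ε) (𝓝[>] 0) (𝓝 (TFE γ z R)) := by
  obtain ⟨d, hd, hdist⟩ := exists_min_dist hR
  rw [Metric.tendsto_nhdsWithin_nhds]
  intro η hη
  obtain ⟨δ₀, hδ₀, hup⟩ := T_upper hγ hz hR (show 0 < η / 2 by linarith)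
  refine ⟨min δ₀ (d / 2), lt_min hδ₀ (by linarith), fun {δ} hδ hδd => ?_⟩
  have hδ0 : 0 < δ := hδ
  rw [Real.dist_eq, sub_zero, abs_of_pos hδ0] at hδd
  have h1 : δ < δ₀ := lt_of_lt_of_le hδd (min_le_left _ _)
  have h2 : δ < d / 2 := lt_of_lt_of_le hδd (min_le_right _ _)
  have h3 := hup δ hδ0 h1
  have h4 := TFE_le_dual hγ hz R hδ0 (nuclei_energy z R hδ0 fun i j hij => by
    have := hdist i j hij; linarith) (Hmol_holds hγ (fld_nuclei z R hδ0))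
  rw [Real.dist_eq, abs_lt]
  constructor <;> linarith

end

end Pool.Agent.Helper96.TF
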