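import Pool.Agent.Helper96.TF.Bump

set_option autoImplicit false

open MeasureTheory Set Filter Topology

namespace Pool.Agent.Helper96.TF

noncomputable section

/-- a continuous compactly supported charge density `σ` together with its Coulomb potential `w` -/
structure Fld (σ w : X → ℝ) : Prop where
  sc : Continuous σ
  ss : HasCompactSupport σ
  wl : ∃ C, LipschitzWith C w
  wd : ∃ C, ∀ x, |w x| * ‖x‖ ≤ C
  der : ∀ x i, LineDifferentiableAt ℝ w x (e i)
  dc : ∀ i, Continuous (fun x => lineDeriv ℝ w x (e i))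
  green : ∀ ψ, Test ψ → ∫ x, gg w ψ x = 4 * Real.pi * ∫ x, σ x * ψ x
  newton : ∀ x, ∫ y, σ y / ‖x - y‖ = w x

lemma ae_ld {φ : X → ℝ} {C : NNReal} (h : LipschitzWith C φ) :
    ∀ᵐ x, ∀ i, LineDifferentiableAt ℝ φ x (e i) := by
  rw [ae_all_iff]
  intro i
  exact h.ae_lineDifferentiableAt (e i)

lemma ld_add {f g : X → ℝ} {x : X} {i : Fin 3} (hf : LineDifferentiableAt ℝ f x (e i))
    (hg : LineDifferentiableAt ℝ g x (e i)) :
    HasLineDerivAt ℝ (fun x => f x + g x) (lineDeriv ℝ f x (e i) + lineDeriv ℝ g x (e i)) x (e i) :=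
  HasDerivAt.add hf.hasLineDerivAt hg.hasLineDerivAt

lemma ld_sub {f g : X → ℝ} {x : X} {i : Fin 3} (hf : LineDifferentiableAt ℝ f x (e i))
    (hg : LineDifferentiableAt ℝ g x (e i)) :
    HasLineDerivAt ℝ (fun x => f x - g x) (lineDeriv ℝ f x (e i) - lineDeriv ℝ g x (e i)) x (e i) :=
  HasDerivAt.sub hf.hasLineDerivAt hg.hasLineDerivAt

lemma ld_mul {f g : X → ℝ} {x : X} {i : Fin 3} (hf : LineDifferentiableAt ℝ f x (e i))
    (hg : LineDifferentiableAt ℝ g x (e i)) :
    HasLineDerivAt ℝ (fun x => f x * g x)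
      (lineDeriv ℝ f x (e i) * g x + f x * lineDeriv ℝ g x (e i)) x (e i) := by
  have h := HasDerivAt.mul hf.hasLineDerivAt hg.hasLineDerivAt
  simp only [zero_smul, add_zero] at h
  exact h

lemma ld_const_mul {f : X → ℝ} {x : X} {i : Fin 3} (c : ℝ) (hf : LineDifferentiableAt ℝ f x (e i)) :
    HasLineDerivAt ℝ (fun x => c * f x) (c * lineDeriv ℝ f x (e i)) x (e i) :=
  HasDerivAt.const_mul c hf.hasLineDerivAt

lemma ld_of_eq {f g : X → ℝ} {x : X} {i : Fin 3} (h : f =ᶠ[𝓝 x] g) :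
    lineDeriv ℝ f x (e i) = lineDeriv ℝ g x (e i) := h.lineDeriv_eq

lemma gg_comm (φ ψ : X → ℝ) (x : X) : gg φ ψ x = gg ψ φ x := by
  unfold gg
  exact Finset.sum_congr rfl fun i _ => mul_comm _ _

lemma gg_zero_right {φ ψ : X → ℝ} {x : X} (h : x ∉ tsupport ψ) : gg φ ψ x = 0 := by
  unfold gg
  exact Finset.sum_eq_zero fun i _ => by rw [lineDeriv_zero_of_not_mem h, mul_zero]

lemma gg_bdd {φ ψ : X → ℝ} {C D : NNReal} (hφ : LipschitzWith C φ) (hψ : LipschitzWith D ψ)
    (x : X) : |gg φ ψ x| ≤ 3 * (C * D) := by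
  unfold gg
  refine (Finset.abs_sum_le_sum_abs _ _).trans ?_
  have : ∀ i : Fin 3, |lineDeriv ℝ φ x (e i) * lineDeriv ℝ ψ x (e i)| ≤ C * D := by
    intro i
    rw [abs_mul]
    exact mul_le_mul (lineDeriv_bdd hφ x i) (lineDeriv_bdd hψ x i) (abs_nonneg _) (by positivity)
  refine (Finset.sum_le_sum fun i _ => this i).trans ?_
  simp

lemma gg_meas {φ ψ : X → ℝ} (hφ : Continuous φ) (hψ : Continuous ψ) : Measurable (gg φ ψ) := by
  unfold gg
  exact Finset.measurable_sum _ fun i _ => (lineDeriv_meas hφ i).mul (lineDeriv_meas hψ i)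

lemma gg_integrable {φ ψ : X → ℝ} {C : NNReal} (hφ : LipschitzWith C φ) (hψ : Test ψ) :
    Integrable (gg φ ψ) := by
  have hc := hψ.cont
  obtain ⟨⟨D, hD⟩, h2⟩ := hψ
  exact integrable_of_bdd_supp (gg_meas hφ.continuous hc) h2 (gg_bdd hφ hD)
    (fun x hx => gg_zero_right hx)

lemma Test.bdd {φ : X → ℝ} (h : Test φ) : ∃ M, 0 ≤ M ∧ ∀ x, |φ x| ≤ M := by
  obtain ⟨M, hM⟩ := h.cont.bounded_above_of_compact_support h.2
  exact ⟨|M|, abs_nonneg _, fun x => (hM x).trans (le_abs_self M)⟩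

lemma Fld.bdd {σ w : X → ℝ} (h : Fld σ w) : ∃ M, 0 ≤ M ∧ ∀ x, |w x| ≤ M := by
  obtain ⟨L, hL⟩ := h.wl
  obtain ⟨C, hC⟩ := h.wd
  refine ⟨|w 0| + L + |C|, by positivity, fun x => ?_⟩
  rcases le_total ‖x‖ 1 with hx | hx
  · have h1 := hL.dist_le_mul x 0
    rw [Real.dist_eq, dist_zero_right] at h1
    have h2 : |w x| ≤ |w 0| + |w x - w 0| := by
      have := abs_add_le (w 0) (w x - w 0)
      simpa using this
    have h3 : (L : ℝ) * ‖x‖ ≤ L := by
      have : (0:ℝ) ≤ L := L.2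
      nlinarith
    have := abs_nonneg C
    linarith
  · have h1 := hC x
    have h2 : |w x| ≤ |w x| * ‖x‖ := by nlinarith [abs_nonneg (w x)]
    have h3 := le_abs_self C
    have : (0:ℝ) ≤ L := L.2
    have := abs_nonneg (w 0)
    linarith

lemma Fld.bddS {σ w : X → ℝ} (h : Fld σ w) : ∃ M, 0 ≤ M ∧ ∀ x, |σ x| ≤ M := by
  obtain ⟨M, hM⟩ := h.sc.bounded_above_of_compact_support h.ss
  exact ⟨|M|, abs_nonneg _, fun x => (hM x).trans (le_abs_self M)⟩

lemma Fld.wc {σ w : X → ℝ} (h : Fld σ w) : Continuous w := by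
  obtain ⟨L, hL⟩ := h.wl
  exact hL.continuous

/-- the product of bounded Lipschitz functions -/
lemma lip_mul {f g : X → ℝ} {C D : NNReal} (hf : LipschitzWith C f) (hg : LipschitzWith D g)
    {M N : ℝ} (hM : ∀ x, |f x| ≤ M) (hN : ∀ x, |g x| ≤ N) :
    ∃ K, LipschitzWith K (fun x => f x * g x) := by
  have hM0 : 0 ≤ M := (abs_nonneg _).trans (hM 0)
  have hN0 : 0 ≤ N := (abs_nonneg _).trans (hN 0)
  refine ⟨Real.toNNReal (M * D + N * C), LipschitzWith.of_dist_le_mul fun x y => ?_⟩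
  rw [Real.coe_toNNReal _ (by positivity), Real.dist_eq]
  have h1 := hf.dist_le_mul x y
  have h2 := hg.dist_le_mul x y
  rw [Real.dist_eq] at h1 h2
  have h3 : f x * g x - f y * g y = f x * (g x - g y) + g y * (f x - f y) := by ring
  rw [h3]
  refine (abs_add_le _ _).trans ?_
  rw [abs_mul, abs_mul]
  have h4 : |f x| * |g x - g y| ≤ M * (D * dist x y) :=
    mul_le_mul (hM x) h2 (abs_nonneg _) hM0
  have h5 : |g y| * |f x - f y| ≤ N * (C * dist x y) :=
    mul_le_mul (hN y) h1 (abs_nonneg _) hN0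
  linarith

lemma Test.mul_bdd {f g : X → ℝ} (hf : Test f) {D : NNReal} (hg : LipschitzWith D g)
    {N : ℝ} (hN : ∀ x, |g x| ≤ N) : Test (fun x => f x * g x) := by
  obtain ⟨M, _, hM⟩ := hf.bdd
  obtain ⟨⟨C, hC⟩, h2⟩ := hf
  exact ⟨lip_mul hC hg hM hN, h2.mul_right⟩

lemma Test.sub {f g : X → ℝ} (hf : Test f) (hg : Test g) : Test (fun x => f x - g x) := by
  obtain ⟨⟨C, hC⟩, h2⟩ := hf
  obtain ⟨⟨D, hD⟩, h3⟩ := hg
  refine ⟨⟨C + D, hC.sub hD⟩, ?_⟩
  have h4 : HasCompactSupport (fun x => f x + (-g x)) := h2.add (h3.comp_left (g := fun t => -t) (by simp))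
  simpa [sub_eq_add_neg] using h4

/-- the cutoff at radius `R` -/
def cutR (R : ℝ) (x : X) : ℝ := max 0 (min 1 (2 - ‖x‖ / R))

lemma cutR_nonneg (R : ℝ) (x : X) : 0 ≤ cutR R x := le_max_left _ _

lemma cutR_le_one (R : ℝ) (x : X) : cutR R x ≤ 1 := max_le zero_le_one (min_le_left _ _)

lemma cutR_abs (R : ℝ) (x : X) : |cutR R x| ≤ 1 := by
  rw [abs_of_nonneg (cutR_nonneg R x)]; exact cutR_le_one R x

lemma cutR_one {R : ℝ} (hR : 0 < R) {x : X} (hx : ‖x‖ ≤ R) : cutR R x = 1 := by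
  unfold cutR
  have : ‖x‖ / R ≤ 1 := (div_le_one hR).mpr hx
  rw [min_eq_left (by linarith), max_eq_right zero_le_one]

lemma cutR_zero {R : ℝ} (hR : 0 < R) {x : X} (hx : 2 * R ≤ ‖x‖) : cutR R x = 0 := by
  unfold cutR
  have : 2 ≤ ‖x‖ / R := (le_div_iff₀ hR).mpr hx
  rw [max_eq_left]
  exact (min_le_right _ _).trans (by linarith)

lemma cutR_lip {R : ℝ} (hR : 0 < R) : LipschitzWith (Real.toNNReal R⁻¹) (cutR R) := by
  have h1 : LipschitzWith (Real.toNNReal R⁻¹) (fun x : X => 2 - ‖x‖ / R) := by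
    refine LipschitzWith.of_dist_le_mul fun x y => ?_
    rw [Real.coe_toNNReal _ (by positivity), Real.dist_eq, dist_eq_norm]
    have : 2 - ‖x‖ / R - (2 - ‖y‖ / R) = R⁻¹ * (‖y‖ - ‖x‖) := by field_simp; ring
    rw [this, abs_mul, abs_of_pos (by positivity : 0 < R⁻¹)]
    gcongr
    rw [norm_sub_rev]
    exact abs_norm_sub_norm_le y x
  exact (h1.const_min 1).const_max 0

lemma cutR_supp {R : ℝ} (hR : 0 < R) : HasCompactSupport (cutR R) := by
  refine HasCompactSupport.intro (isCompact_closedBall (0 : X) (2 * R)) (fun x hx => ?_)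
  rw [Metric.mem_closedBall, dist_zero_right, not_le] at hx
  exact cutR_zero hR hx.le

lemma cutR_test {R : ℝ} (hR : 0 < R) : Test (cutR R) := ⟨⟨_, cutR_lip hR⟩, cutR_supp hR⟩

lemma vol_cball (r : ℝ) (hr : 0 ≤ r) : (volume : Measure X).real (Metric.closedBall 0 r) = r ^ 3 * (Real.pi * 4 / 3) := by
  rw [Measure.real, EuclideanSpace.volume_closedBall_fin_three, ENNReal.toReal_mul, ENNReal.toReal_pow,
    ENNReal.toReal_ofReal hr, ENNReal.toReal_ofReal (by positivity)]


lemma cutR_ld_in {R : ℝ} (hR : 0 < R) {x : X} (hx : ‖x‖ < R) (i : Fin 3) :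
    lineDeriv ℝ (cutR R) x (e i) = 0 := by
  have h : cutR R =ᶠ[𝓝 x] (fun _ => (1:ℝ)) := by
    have : {y : X | ‖y‖ < R} ∈ 𝓝 x := (isOpen_lt continuous_norm continuous_const).mem_nhds hx
    filter_upwards [this] with y hy
    exact cutR_one hR (le_of_lt hy)
  rw [ld_of_eq h]
  simp [lineDeriv]

lemma cutR_ld_out {R : ℝ} (hR : 0 < R) {x : X} (hx : 2 * R < ‖x‖) (i : Fin 3) :
    lineDeriv ℝ (cutR R) x (e i) = 0 := by
  have h : cutR R =ᶠ[𝓝 x] (fun _ => (0:ℝ)) := by
    have : {y : X | 2 * R < ‖y‖} ∈ 𝓝 x := (isOpen_lt continuous_const continuous_norm).mem_nhds hx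
    filter_upwards [this] with y hy
    exact cutR_zero hR (le_of_lt hy)
  rw [ld_of_eq h]
  simp [lineDeriv]

lemma cutR_gg_bdd {R : ℝ} (hR : 0 < R) (x : X) : gg (cutR R) (cutR R) x ≤ 3 * R⁻¹ ^ 2 := by
  have h := gg_bdd (cutR_lip hR) (cutR_lip hR) x
  rw [Real.coe_toNNReal _ (by positivity)] at h
  have := le_abs_self (gg (cutR R) (cutR R) x)
  nlinarith

/-- the error made by cutting off a potential -/
lemma cutR_error {w : X → ℝ} {C M : ℝ} (hwc : Continuous w) (hM : ∀ x, |w x| ≤ M)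
    (hC : ∀ x, |w x| * ‖x‖ ≤ C) {R : ℝ} (hR : 0 < R) :
    Integrable (fun x => w x ^ 2 * gg (cutR R) (cutR R) x) ∧
    ∫ x, w x ^ 2 * gg (cutR R) (cutR R) x ≤ (32 * Real.pi * C ^ 2) / R := by
  have hcc : Continuous (cutR R) := (cutR_lip hR).continuous
  have hpt : ∀ x, w x ^ 2 * gg (cutR R) (cutR R) x ≤
      (Metric.closedBall (0 : X) (2 * R)).indicator (fun _ => 3 * C ^ 2 * R⁻¹ ^ 4) x := by
    intro x
    by_cases h2 : 2 * R < ‖x‖
    · have h0 : gg (cutR R) (cutR R) x = 0 := by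
        unfold gg
        exact Finset.sum_eq_zero fun i _ => by rw [cutR_ld_out hR h2 i, mul_zero]
      rw [h0, mul_zero]
      exact indicator_nonneg (fun _ _ => by positivity) x
    · rw [indicator_of_mem (by rw [Metric.mem_closedBall, dist_zero_right]; exact not_lt.mp h2)]
      by_cases h1 : ‖x‖ < R
      · have h0 : gg (cutR R) (cutR R) x = 0 := by
          unfold gg
          exact Finset.sum_eq_zero fun i _ => by rw [cutR_ld_in hR h1 i, mul_zero]
        rw [h0, mul_zero]; positivity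
      · rw [not_lt] at h1
        have h3 : |w x| ≤ C * R⁻¹ := by
          have h4 := hC x
          have h5 : |w x| * R ≤ C := by nlinarith [abs_nonneg (w x)]
          rwa [← div_eq_mul_inv, le_div_iff₀ hR]
        have h6 : w x ^ 2 ≤ (C * R⁻¹) ^ 2 := by
          rw [← sq_abs]; exact pow_le_pow_left₀ (abs_nonneg _) h3 2
        have h7 := cutR_gg_bdd hR x
        calc w x ^ 2 * gg (cutR R) (cutR R) x ≤ (C * R⁻¹) ^ 2 * (3 * R⁻¹ ^ 2) :=
              mul_le_mul h6 h7 (gg_nonneg _ _) (by positivity)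
          _ = 3 * C ^ 2 * R⁻¹ ^ 4 := by ring
  have hint : Integrable (fun x => w x ^ 2 * gg (cutR R) (cutR R) x) := by
    refine integrable_of_bdd_supp (C := M ^ 2 * (3 * R⁻¹ ^ 2))
      ((hwc.measurable.pow_const 2).mul (gg_meas hcc hcc)) (cutR_supp hR) ?_ ?_
    · intro x
      rw [abs_mul, abs_of_nonneg (gg_nonneg _ _), abs_of_nonneg (sq_nonneg _)]
      refine mul_le_mul ?_ (cutR_gg_bdd hR x) (gg_nonneg _ _) (sq_nonneg _)
      rw [← sq_abs]; exact pow_le_pow_left₀ (abs_nonneg _) (hM x) 2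
    · intro x hx
      rw [gg_zero_right hx, mul_zero]
  refine ⟨hint, ?_⟩
  have hvol : (volume : Measure X).real (Metric.closedBall 0 (2 * R)) = (2 * R) ^ 3 * (Real.pi * 4 / 3) :=
    vol_cball _ (by positivity)
  calc ∫ x, w x ^ 2 * gg (cutR R) (cutR R) x
      ≤ ∫ x, (Metric.closedBall (0 : X) (2 * R)).indicator (fun _ => 3 * C ^ 2 * R⁻¹ ^ 4) x := by
        refine integral_mono hint ?_ hpt
        exact (integrable_indicator_iff Metric.isClosed_closedBall.measurableSet).mpr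
          (integrableOn_const (isCompact_closedBall _ _).measure_lt_top.ne)
    _ = (32 * Real.pi * C ^ 2) / R := by
        rw [integral_indicator Metric.isClosed_closedBall.measurableSet, setIntegral_const, hvol]
        rw [smul_eq_mul]
        field_simp
        ring

lemma exists_radius {f : X → ℝ} (h : HasCompactSupport f) :
    ∃ R : ℝ, 0 < R ∧ ∀ x, R ≤ ‖x‖ → x ∉ tsupport f := by
  obtain ⟨R, hR⟩ := (show IsCompact (tsupport f) from h).isBounded.subset_ball (0 : X)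
  refine ⟨max R 1, by positivity, fun x hx hx' => ?_⟩
  have := hR hx'
  rw [Metric.mem_ball, dist_zero_right] at this
  have := le_max_left R 1
  linarith

/-- the Coulomb energy of a neutral or charged smooth distribution controls its pairing with
test functions -/
theorem field_bound {σ w : X → ℝ} (h : Fld σ w) {φ : X → ℝ} (hφ : Test φ) :
    ∫ x, φ x * σ x ≤ Dir φ + (1 / 2) * ∫ x, w x * σ x := by
  obtain ⟨L, hL⟩ := h.wl
  obtain ⟨M, hM0, hM⟩ := h.bdd
  obtain ⟨C, hC⟩ := h.wd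
  obtain ⟨R1, hR1, hRφ⟩ := exists_radius hφ.2
  obtain ⟨R2, hR2, hRσ⟩ := exists_radius h.ss
  have hwc : Continuous w := hL.continuous
  have key : ∀ R, R1 + R2 < R → 0 ≤ (∫ x, gg φ φ x) - 8 * Real.pi * (∫ x, φ x * σ x) +
      4 * Real.pi * (∫ x, w x * σ x) + (32 * Real.pi * C ^ 2) / R := by
    intro R hR
    have hR0 : 0 < R := by linarith
    obtain ⟨hi, hb⟩ := cutR_error hwc hM hC hR0
    have hwR : Test (fun x => cutR R x * w x) := (cutR_test hR0).mul_bdd hL hM
    have hwRb : ∀ x, |cutR R x * w x| ≤ M := fun x => by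
      rw [abs_mul]
      calc |cutR R x| * |w x| ≤ 1 * M := mul_le_mul (cutR_abs R x) (hM x) (abs_nonneg _) zero_le_one
        _ = M := one_mul M
    obtain ⟨K, hK⟩ := hwR.1
    have hψ : Test (fun x => cutR R x * (cutR R x * w x)) := (cutR_test hR0).mul_bdd hK hwRb
    have hd : Test (fun x => φ x - cutR R x * w x) := hφ.sub hwR
    obtain ⟨K', hK'⟩ := hd.1
    obtain ⟨Kφ, hKφ⟩ := hφ.1
    have hae : ∀ᵐ x, gg (fun x => φ x - cutR R x * w x) (fun x => φ x - cutR R x * w x) x =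
        gg φ φ x - 2 * gg w φ x + (gg w (fun x => cutR R x * (cutR R x * w x)) x +
          w x ^ 2 * gg (cutR R) (cutR R) x) := by
      filter_upwards [ae_ld hKφ, ae_ld (cutR_lip hR0)] with x h1 h2
      unfold gg
      rw [Finset.mul_sum, Finset.mul_sum, ← Finset.sum_sub_distrib, ← Finset.sum_add_distrib,
        ← Finset.sum_add_distrib]
      refine Finset.sum_congr rfl fun i _ => ?_
      have a1 := ld_mul (h2 i) (h.der x i)
      have a2 := ld_sub (h1 i) a1.lineDifferentiableAt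
      have a3 := ld_mul (h2 i) a1.lineDifferentiableAt
      rw [a2.lineDeriv, a3.lineDeriv, a1.lineDeriv]
      by_cases hx : x ∈ tsupport φ
      · have hx1 : ‖x‖ < R := by
          by_contra hc
          exact hRφ x (by linarith) hx
        rw [cutR_ld_in hR0 hx1 i, cutR_one hR0 hx1.le]
        ring
      · rw [lineDeriv_zero_of_not_mem hx i]
        ring
    have h0 : 0 ≤ ∫ x, gg (fun x => φ x - cutR R x * w x) (fun x => φ x - cutR R x * w x) x :=
      integral_nonneg fun x => gg_nonneg _ _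
    have i1 := gg_integrable hKφ hφ
    have i2 := gg_integrable hL hφ
    have i3 := gg_integrable hL hψ
    have i4 : Integrable (fun x => gg φ φ x - 2 * gg w φ x) := i1.sub (i2.const_mul 2)
    have i5 : Integrable (fun x => gg w (fun x => cutR R x * (cutR R x * w x)) x +
      w x ^ 2 * gg (cutR R) (cutR R) x) := i3.add hi
    rw [integral_congr_ae hae, integral_add i4 i5,
      integral_sub i1 (i2.const_mul 2), integral_const_mul, integral_add i3 hi,
      h.green φ hφ, h.green _ hψ] at h0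
    have h5 : ∫ x, σ x * (cutR R x * (cutR R x * w x)) = ∫ x, w x * σ x := by
      refine integral_congr_ae (ae_of_all _ fun x => ?_)
      simp only
      by_cases hx : x ∈ tsupport σ
      · have hx1 : ‖x‖ < R := by
          by_contra hc
          exact hRσ x (by linarith) hx
        rw [cutR_one hR0 hx1.le]; ring
      · rw [image_eq_zero_of_notMem_tsupport hx]; ring
    have h6 : ∫ x, σ x * φ x = ∫ x, φ x * σ x := by
      refine integral_congr_ae (ae_of_all _ fun x => ?_)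
      simp only; ring
    rw [h5, h6] at h0
    linarith
  have hlim : Tendsto (fun R : ℝ => (∫ x, gg φ φ x) - 8 * Real.pi * (∫ x, φ x * σ x) +
      4 * Real.pi * (∫ x, w x * σ x) + (32 * Real.pi * C ^ 2) / R) atTop
      (𝓝 ((∫ x, gg φ φ x) - 8 * Real.pi * (∫ x, φ x * σ x) +
      4 * Real.pi * (∫ x, w x * σ x) + 0)) :=
    tendsto_const_nhds.add (tendsto_const_nhds.div_atTop tendsto_id)
  have h1 := ge_of_tendsto hlim ((eventually_gt_atTop (R1 + R2)).mono key)
  unfold Dir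
  have hpi := Real.pi_pos
  rw [add_zero] at h1
  have h2 : 8 * Real.pi * ((1 / (8 * Real.pi) * ∫ x, gg φ φ x) + (1 / 2) * ∫ x, w x * σ x) =
      (∫ x, gg φ φ x) + 4 * Real.pi * ∫ x, w x * σ x := by
    field_simp
    ring
  have h3 : 8 * Real.pi * (∫ x, φ x * σ x) ≤ 8 * Real.pi * ((1 / (8 * Real.pi) * ∫ x, gg φ φ x) +
      (1 / 2) * ∫ x, w x * σ x) := by rw [h2]; linarith
  exact le_of_mul_le_mul_left h3 (by positivity)

end

end Pool.Agent.Helper96.TF
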