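import Pool.Agent.Helper96.TF.Lower
import Pool.Agent.Helper93.TF.Upper

set_option autoImplicit false

open MeasureTheory Set Filter Topology

namespace Pool.Agent.Helper96.TF

noncomputable section

/-- both halves together -/
theorem final {γ : ℝ} (hγ : 0 < γ) {n : ℕ} (hn : 2 ≤ n) {K : Fin n → ℕ} (hK : ∀ m, 0 < K m)
    (z : ∀ m, Fin (K m) → ℝ) (hz : ∀ m i, 0 < z m i) (R : ∀ m, Fin (K m) → X)
    (hR : ∀ m, Function.Injective (R m)) (Y : Fin n → X) (hY : Function.Injective Y) :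
    (∀ (k : ℕ) (q : Fin k → ℝ) (Q : Fin k → X), (∀ i, 0 < q i) →
      (energySet γ q Q).Nonempty ∧ BddBelow (energySet γ q Q)) ∧
    (∀ l : ℝ, (energySet γ (fun i : (m : Fin n) × Fin (K m) => z i.1 i.2)
        (fun i => R i.1 i.2 + l • Y i.1)).Nonempty ∧
      BddBelow (energySet γ (fun i : (m : Fin n) × Fin (K m) => z i.1 i.2)
        (fun i => R i.1 i.2 + l • Y i.1))) ∧
    ∃ c C l0 : ℝ, 0 < c ∧ c ≤ C ∧ 0 < l0 ∧ ∀ l, l0 ≤ l →
      c / l ^ 7 ≤ DeltaE γ z R Y l ∧ DeltaE γ z R Y l ≤ C / l ^ 7 := by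
  refine ⟨fun k q Q hq => ⟨energySet_nonempty γ q (fun i => (hq i).le) Q,
    energySet_bddBelow hγ q (fun i => (hq i).le) Q⟩, fun l => ⟨energySet_nonempty γ _
      (fun i => (hz _ _).le) _, energySet_bddBelow hγ _ (fun i => (hz _ _).le) _⟩, ?_⟩
  obtain ⟨c, l1, hc, hl1, h1⟩ := lower_half hγ hn hK hz hR hY
  obtain ⟨C, l2, hC, hl2, h2⟩ := upper_half hγ z R Y (fun m i => (hz m i).le) hR hY
  refine ⟨c, max c C, max l1 l2, hc, le_max_left _ _, lt_max_of_lt_left hl1, fun l hl => ?_⟩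
  have hl1' : l1 ≤ l := (le_max_left _ _).trans hl
  have hl2' : l2 ≤ l := (le_max_right _ _).trans hl
  have hl0 : 0 < l := lt_of_lt_of_le hl1 hl1'
  have e : ∀ a : ℝ, a * l⁻¹ ^ 7 = a / l ^ 7 := fun a => by rw [inv_pow, div_eq_mul_inv]
  constructor
  · rw [← e]; exact h1 l hl1'
  · rw [← e]
    refine (h2 l hl2').trans ?_
    exact mul_le_mul_of_nonneg_right (le_max_right _ _) (by positivity)

end

end Pool.Agent.Helper96.TF
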