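import Pool.Agent.Helper96.TF.Dual

set_option autoImplicit false

open MeasureTheory Set Filter Topology

namespace Pool.Agent.Helper96.TF

noncomputable section

/-- the interaction is supermodular in the charges -/
lemma TFE_super {ι : Type} [Fintype ι] {γ : ℝ} (hγ : 0 < γ) {R : ι → X}
    (hR : Function.Injective R) {z a b : ι → ℝ} (hz : ∀ i, 0 ≤ z i) (ha : ∀ i, 0 ≤ a i)
    (hb : ∀ i, 0 ≤ b i) (hab : ∀ i, a i * b i = 0) :
    TFE γ (fun i => z i + a i) R + TFE γ (fun i => z i + b i) R ≤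
      TFE γ (fun i => z i + a i + b i) R + TFE γ z R := by
  have h1 := dual_lim hγ (fun i => z i + a i) R (fun i => add_nonneg (hz i) (ha i)) hR
  have h2 := dual_lim hγ (fun i => z i + b i) R (fun i => add_nonneg (hz i) (hb i)) hR
  have h3 := dual_lim hγ (fun i => z i + a i + b i) R
    (fun i => add_nonneg (add_nonneg (hz i) (ha i)) (hb i)) hR
  have h4 := dual_lim hγ z R hz hR
  refine le_of_tendsto_of_tendsto (h1.add h2) (h3.add h4) ?_
  filter_upwards [self_mem_nhdsWithin] with ε hε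
  have hε0 : 0 < ε := hε
  have hsup := T_supermod (Real.rpow_pos_of_pos hγ (-(3 / 2) : ℝ)) (E_nuS_nice hz R hε0)
    (E_nuS_nice ha R hε0) (E_nuS_nice hb R hε0)
  have e1 : nuS (fun i => z i + a i) R ε = fun x => nuS z R ε x + nuS a R ε x := by
    funext x; unfold nuS; rw [← Finset.sum_add_distrib]
    exact Finset.sum_congr rfl fun i _ => by ring
  have e2 : nuS (fun i => z i + b i) R ε = fun x => nuS z R ε x + nuS b R ε x := by
    funext x; unfold nuS; rw [← Finset.sum_add_distrib]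
    exact Finset.sum_congr rfl fun i _ => by ring
  have e3 : nuS (fun i => z i + a i + b i) R ε =
      fun x => nuS z R ε x + nuS a R ε x + nuS b R ε x := by
    funext x; unfold nuS; rw [← Finset.sum_add_distrib, ← Finset.sum_add_distrib]
    exact Finset.sum_congr rfl fun i _ => by ring
  have e4 : selfE (fun i => z i + a i) ε + selfE (fun i => z i + b i) ε =
      selfE (fun i => z i + a i + b i) ε + selfE z ε := by
    unfold selfE
    rw [← mul_add, ← mul_add, ← Finset.sum_add_distrib, ← Finset.sum_add_distrib]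
    congr 1
    refine Finset.sum_congr rfl fun i _ => ?_
    have := hab i
    linear_combination (-2 : ℝ) * this
  rw [e1, e2, e3]
  linarith

lemma TFE_zero {ι : Type} [Fintype ι] {γ : ℝ} (hγ : 0 < γ) {R : ι → X}
    (hR : Function.Injective R) : TFE γ (fun _ => 0) R = 0 := by
  have h1 := dual_lim hγ (fun _ => 0) R (fun _ => le_rfl) hR
  refine tendsto_nhds_unique h1 ?_
  have e1 : ∀ ε : ℝ, T (γ ^ (-(3 / 2) : ℝ)) (nuS (fun _ => 0) R ε) - selfE (fun _ : ι => (0:ℝ)) ε = 0 := by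
    intro ε
    have e2 : nuS (fun _ => 0) R ε = fun _ => 0 := by
      funext x; unfold nuS; simp
    rw [e2, T_zero (Real.rpow_nonneg hγ.le _)]
    unfold selfE
    simp
  simp_rw [e1]
  exact tendsto_const_nhds

/-- adding nuclei without charge does not change the energy -/
lemma TFE_reindex {ι ι' : Type} [Fintype ι] [Fintype ι'] (γ : ℝ) (f : ι' → ι)
    (hf : Function.Injective f) (z : ι → ℝ) (P : ι → X) (h0 : ∀ i, i ∉ range f → z i = 0) :
    TFE γ z P = TFE γ (fun j => z (f j)) (fun j => P (f j)) := by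
  classical
  have hV : ∀ x, Vp z P x = Vp (fun j => z (f j)) (fun j => P (f j)) x := by
    intro x
    unfold Vp
    exact (Fintype.sum_of_injective f hf _ _ (fun i hi => by rw [h0 i hi, zero_div])
      (fun j => rfl)).symm
  have hS : ∑ i, z i = ∑ j, z (f j) :=
    (Fintype.sum_of_injective f hf _ _ (fun i hi => h0 i hi) (fun j => rfl)).symm
  have hU : Urep z P = Urep (fun j => z (f j)) (fun j => P (f j)) := by
    unfold Urep
    congr 1
    symm
    refine Fintype.sum_of_injective f hf _ _ (fun i hi => ?_) (fun j => ?_)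
    · refine Finset.sum_eq_zero fun j _ => ?_
      rw [h0 i hi]; simp
    · refine Fintype.sum_of_injective f hf _ _ (fun i hi => ?_) (fun k => ?_)
      · rw [h0 i hi]; simp
      · simp only [hf.eq_iff]
  have hE : ∀ ρ, energy γ z P ρ = energy γ (fun j => z (f j)) (fun j => P (f j)) ρ := by
    intro ρ
    unfold energy
    rw [hU]
    simp_rw [hV]
  unfold TFE energySet
  simp_rw [hE, hS]

/-! ### two nuclei -/

/-- the interaction energy of two nuclei -/
def G2 (γ a b : ℝ) (R : Fin 2 → X) : ℝ :=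
  TFE γ ![a, b] R - TFE γ ![a, 0] R - TFE γ ![0, b] R

lemma vec_nonneg {a b : ℝ} (ha : 0 ≤ a) (hb : 0 ≤ b) : ∀ i : Fin 2, 0 ≤ (![a, b] : Fin 2 → ℝ) i := by
  intro i; fin_cases i <;> simp [ha, hb]

lemma G2_mono_left {γ : ℝ} (hγ : 0 < γ) {R : Fin 2 → X} (hR : Function.Injective R) {a a' b : ℝ}
    (ha : 0 ≤ a) (haa : a ≤ a') (hb : 0 ≤ b) : G2 γ a b R ≤ G2 γ a' b R := by
  have h := TFE_super hγ hR (z := ![a, 0]) (a := ![a' - a, 0]) (b := ![0, b])
    (vec_nonneg ha le_rfl) (vec_nonneg (by linarith) le_rfl) (vec_nonneg le_rfl hb)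
    (fun i => by fin_cases i <;> simp)
  have e1 : (fun i : Fin 2 => (![a, 0] : Fin 2 → ℝ) i + (![a' - a, 0] : Fin 2 → ℝ) i) = ![a', 0] := by
    funext i; fin_cases i <;> simp
  have e2 : (fun i : Fin 2 => (![a, 0] : Fin 2 → ℝ) i + (![0, b] : Fin 2 → ℝ) i) = ![a, b] := by
    funext i; fin_cases i <;> simp
  have e3 : (fun i : Fin 2 => (![a, 0] : Fin 2 → ℝ) i + (![a' - a, 0] : Fin 2 → ℝ) i +
      (![0, b] : Fin 2 → ℝ) i) = ![a', b] := by
    funext i; fin_cases i <;> simp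
  rw [e1, e2, e3] at h
  unfold G2
  linarith

lemma G2_mono_right {γ : ℝ} (hγ : 0 < γ) {R : Fin 2 → X} (hR : Function.Injective R) {a b b' : ℝ}
    (ha : 0 ≤ a) (hb : 0 ≤ b) (hbb : b ≤ b') : G2 γ a b R ≤ G2 γ a b' R := by
  have h := TFE_super hγ hR (z := ![0, b]) (a := ![0, b' - b]) (b := ![a, 0])
    (vec_nonneg le_rfl hb) (vec_nonneg le_rfl (by linarith)) (vec_nonneg ha le_rfl)
    (fun i => by fin_cases i <;> simp)
  have e1 : (fun i : Fin 2 => (![0, b] : Fin 2 → ℝ) i + (![0, b' - b] : Fin 2 → ℝ) i) = ![0, b'] := by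
    funext i; fin_cases i <;> simp
  have e2 : (fun i : Fin 2 => (![0, b] : Fin 2 → ℝ) i + (![a, 0] : Fin 2 → ℝ) i) = ![a, b] := by
    funext i; fin_cases i <;> simp
  have e3 : (fun i : Fin 2 => (![0, b] : Fin 2 → ℝ) i + (![0, b' - b] : Fin 2 → ℝ) i +
      (![a, 0] : Fin 2 → ℝ) i) = ![a, b'] := by
    funext i; fin_cases i <;> simp
  rw [e1, e2, e3] at h
  unfold G2
  linarith

lemma G2_scale {γ : ℝ} {R : Fin 2 → X} {a b s : ℝ} (hs : 0 < s) :
    G2 γ (s ^ 3 * a) (s ^ 3 * b) (fun i => s⁻¹ • R i) = s ^ 7 * G2 γ a b R := by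
  unfold G2
  have h1 := TFE_scale γ ![a, b] R hs
  have h2 := TFE_scale γ ![a, 0] R hs
  have h3 := TFE_scale γ ![0, b] R hs
  have e1 : (fun i : Fin 2 => s ^ 3 * (![a, b] : Fin 2 → ℝ) i) = ![s ^ 3 * a, s ^ 3 * b] := by
    funext i; fin_cases i <;> simp
  have e2 : (fun i : Fin 2 => s ^ 3 * (![a, 0] : Fin 2 → ℝ) i) = ![s ^ 3 * a, 0] := by
    funext i; fin_cases i <;> simp
  have e3 : (fun i : Fin 2 => s ^ 3 * (![0, b] : Fin 2 → ℝ) i) = ![0, s ^ 3 * b] := by
    funext i; fin_cases i <;> simp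
  rw [e1] at h1
  rw [e2] at h2
  rw [e3] at h3
  rw [h1, h2, h3]; ring

/-- two nuclei repel with energy at least a constant times the seventh inverse power -/
lemma G2_lower {γ : ℝ} (hγ : 0 < γ) {a b : ℝ} (ha : 0 < a) (hb : 0 < b) :
    ∃ r0 : ℝ, 0 < r0 ∧ ∀ R : Fin 2 → X, r0 ≤ ‖R 0 - R 1‖ →
      r0 ^ 7 * ‖R 0 - R 1‖⁻¹ ^ 7 ≤ G2 γ a b R := by
  obtain ⟨C, hC⟩ := two_lower hγ (max a b)
  set r0 := a * b / (|C| + 1) with hr0
  have hr0pos : 0 < r0 := by positivity
  refine ⟨r0, hr0pos, fun R hR => ?_⟩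
  set D := ‖R 0 - R 1‖ with hD
  have hDpos : 0 < D := lt_of_lt_of_le hr0pos hR
  set s := D / r0 with hs
  have hs1 : 1 ≤ s := (one_le_div hr0pos).mpr hR
  have hs0 : 0 < s := by linarith
  have hinj : Function.Injective (fun i : Fin 2 => s⁻¹ • R i) := by
    intro i j hij
    have h1 : R i = R j := smul_right_injective X (inv_ne_zero hs0.ne') hij
    by_contra hne
    have h2 : R 0 = R 1 := by
      fin_cases i <;> fin_cases j <;> simp at hne h1 ⊢
      · exact h1
      · exact h1.symm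
    rw [hD, h2, sub_self, norm_zero] at hDpos
    exact lt_irrefl _ hDpos
  have hdist : ‖s⁻¹ • R 0 - s⁻¹ • R 1‖ = r0 := by
    rw [← smul_sub, norm_smul, Real.norm_eq_abs, abs_of_pos (inv_pos.mpr hs0), ← hD, hs, inv_div]
    field_simp
  have hone : 1 ≤ G2 γ a b (fun i => s⁻¹ • R i) := by
    unfold G2
    have h1 := hC ![a, b] (fun i => by
      fin_cases i
      · exact ⟨ha.le, le_max_left _ _⟩
      · exact ⟨hb.le, le_max_right _ _⟩) (fun i => s⁻¹ • R i)
    simp only [Matrix.cons_val_zero, Matrix.cons_val_one] at h1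
    rw [hdist] at h1
    have h2 := one_nonpos hγ ![a, 0] (vec_nonneg ha.le le_rfl) 0 (fun i hi => by
      fin_cases i
      · exact absurd rfl hi
      · simp) (fun i => s⁻¹ • R i)
    have h3 := one_nonpos hγ ![0, b] (vec_nonneg le_rfl hb.le) 1 (fun i hi => by
      fin_cases i
      · simp
      · exact absurd rfl hi) (fun i => s⁻¹ • R i)
    have h4 : a * b / r0 = |C| + 1 := by
      rw [hr0]; field_simp
    rw [h4] at h1
    have := le_abs_self C
    linarith
  have hs3 : 1 ≤ s ^ 3 := one_le_pow₀ hs1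
  have h5 : G2 γ a b (fun i => s⁻¹ • R i) ≤ G2 γ (s ^ 3 * a) (s ^ 3 * b) (fun i => s⁻¹ • R i) :=
    (G2_mono_left hγ hinj ha.le (by nlinarith) hb.le).trans
      (G2_mono_right hγ hinj (by positivity) hb.le (by nlinarith))
  rw [G2_scale hs0] at h5
  have h6 : 1 ≤ s ^ 7 * G2 γ a b R := hone.trans h5
  have h7 : r0 ^ 7 * D⁻¹ ^ 7 = (s ^ 7)⁻¹ := by
    clear_value r0 D
    rw [hs, div_pow, inv_div, inv_pow, div_eq_mul_inv]
  rw [h7, inv_le_iff_one_le_mul₀ (by positivity)]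
  linarith

/-! ### the set function -/

/-- the energy of a subset of the nuclei -/
def FA {ι : Type} [Fintype ι] [DecidableEq ι] (γ : ℝ) (z : ι → ℝ) (P : ι → X) (A : Finset ι) : ℝ :=
  TFE γ (fun i => if i ∈ A then z i else 0) P

lemma FA_super {ι : Type} [Fintype ι] [DecidableEq ι] {γ : ℝ} (hγ : 0 < γ) {z : ι → ℝ}
    (hz : ∀ i, 0 ≤ z i) {P : ι → X} (hP : Function.Injective P) (A B : Finset ι) :
    FA γ z P A + FA γ z P B ≤ FA γ z P (A ∪ B) + FA γ z P (A ∩ B) := by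
  have h := TFE_super hγ hP (z := fun i => if i ∈ A ∩ B then z i else 0)
    (a := fun i => if i ∈ A \ B then z i else 0) (b := fun i => if i ∈ B \ A then z i else 0)
    (fun i => by split_ifs <;> simp [hz i]) (fun i => by split_ifs <;> simp [hz i])
    (fun i => by split_ifs <;> simp [hz i])
    (fun i => by
      by_cases h1 : i ∈ A <;> by_cases h2 : i ∈ B <;> simp [h1, h2])
  unfold FA
  have e1 : (fun i => (if i ∈ A ∩ B then z i else 0) + (if i ∈ A \ B then z i else 0)) =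
      fun i => if i ∈ A then z i else 0 := by
    funext i
    by_cases h1 : i ∈ A <;> by_cases h2 : i ∈ B <;> simp [h1, h2]
  have e2 : (fun i => (if i ∈ A ∩ B then z i else 0) + (if i ∈ B \ A then z i else 0)) =
      fun i => if i ∈ B then z i else 0 := by
    funext i
    by_cases h1 : i ∈ A <;> by_cases h2 : i ∈ B <;> simp [h1, h2]
  have e3 : (fun i => (if i ∈ A ∩ B then z i else 0) + (if i ∈ A \ B then z i else 0) +
      (if i ∈ B \ A then z i else 0)) = fun i => if i ∈ A ∪ B then z i else 0 := by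
    funext i
    by_cases h1 : i ∈ A <;> by_cases h2 : i ∈ B <;> simp [h1, h2]
  rw [e1, e2, e3] at h
  exact h

lemma FA_empty {ι : Type} [Fintype ι] [DecidableEq ι] {γ : ℝ} (hγ : 0 < γ) (z : ι → ℝ) {P : ι → X}
    (hP : Function.Injective P) : FA γ z P ∅ = 0 := by
  unfold FA
  simpa using TFE_zero hγ hP

lemma FA_superadd {ι : Type} [Fintype ι] [DecidableEq ι] {γ : ℝ} (hγ : 0 < γ) {z : ι → ℝ}
    (hz : ∀ i, 0 ≤ z i) {P : ι → X} (hP : Function.Injective P) {n : ℕ} (M : Fin n → Finset ι)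
    (hdisj : ∀ m m', m ≠ m' → Disjoint (M m) (M m')) (A : Finset ι) (S : Finset (Fin n))
    (hA : ∀ m ∈ S, Disjoint A (M m)) :
    FA γ z P A + ∑ m ∈ S, FA γ z P (M m) ≤ FA γ z P (A ∪ S.biUnion M) := by
  induction S using Finset.induction_on with
  | empty => simp
  | insert a s ha ih =>
    have h1 := ih (fun m hm => hA m (Finset.mem_insert_of_mem hm))
    rw [Finset.sum_insert ha, Finset.biUnion_insert]
    have h2 := FA_super hγ hz hP (A ∪ s.biUnion M) (M a)
    have h3 : (A ∪ s.biUnion M) ∩ M a = ∅ := by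
      rw [← Finset.disjoint_iff_inter_eq_empty, Finset.disjoint_union_left]
      refine ⟨hA a (Finset.mem_insert_self _ _), ?_⟩
      rw [Finset.disjoint_biUnion_left]
      intro m hm
      exact hdisj m a (fun h => ha (h ▸ hm))
    rw [h3, FA_empty hγ z hP] at h2
    have h4 : A ∪ (M a ∪ s.biUnion M) = A ∪ s.biUnion M ∪ M a := by
      rw [Finset.union_comm (M a), Finset.union_assoc]
    rw [h4]
    linarith


/-! ### molecules -/

section molecules

variable {n : ℕ} {K : Fin n → ℕ}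

/-- the charges of the combined configuration -/
def zC (z : ∀ m, Fin (K m) → ℝ) (i : (m : Fin n) × Fin (K m)) : ℝ := z i.1 i.2

/-- the positions of the combined configuration at scale `l` -/
def PC (R : ∀ m, Fin (K m) → X) (Y : Fin n → X) (l : ℝ) (i : (m : Fin n) × Fin (K m)) : X :=
  R i.1 i.2 + l • Y i.1

/-- the size of the molecules -/
def rC (R : ∀ m, Fin (K m) → X) : ℝ := ∑ i : (m : Fin n) × Fin (K m), ‖R i.1 i.2‖

lemma rC_nonneg (R : ∀ m, Fin (K m) → X) : 0 ≤ rC R :=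
  Finset.sum_nonneg fun _ _ => norm_nonneg _

lemma rC_le (R : ∀ m, Fin (K m) → X) (i : (m : Fin n) × Fin (K m)) : ‖R i.1 i.2‖ ≤ rC R :=
  Finset.single_le_sum (f := fun i : (m : Fin n) × Fin (K m) => ‖R i.1 i.2‖)
    (fun _ _ => norm_nonneg _) (Finset.mem_univ i)

lemma PC_dist_lower (R : ∀ m, Fin (K m) → X) {Y : Fin n → X} {d : ℝ}
    (hd : ∀ m m', m ≠ m' → d ≤ ‖Y m - Y m'‖) {l : ℝ} (hl : 0 ≤ l)
    {i j : (m : Fin n) × Fin (K m)} (hij : i.1 ≠ j.1) :
    l * d - 2 * rC R ≤ ‖PC R Y l i - PC R Y l j‖ := by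
  have h1 : l • (Y i.1 - Y j.1) = (PC R Y l i - PC R Y l j) - (R i.1 i.2 - R j.1 j.2) := by
    unfold PC; rw [smul_sub]; abel
  have h2 : ‖l • (Y i.1 - Y j.1)‖ = l * ‖Y i.1 - Y j.1‖ := by
    rw [norm_smul, Real.norm_eq_abs, abs_of_nonneg hl]
  have h3 := norm_sub_le (PC R Y l i - PC R Y l j) (R i.1 i.2 - R j.1 j.2)
  have h4 := norm_sub_le (R i.1 i.2) (R j.1 j.2)
  have h5 := rC_le R i
  have h6 := rC_le R j
  have h7 := hd _ _ hij
  rw [← h1, h2] at h3
  nlinarith

lemma PC_dist_upper (R : ∀ m, Fin (K m) → X) (Y : Fin n → X) {l : ℝ} (hl : 0 ≤ l)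
    (i j : (m : Fin n) × Fin (K m)) :
    ‖PC R Y l i - PC R Y l j‖ ≤ 2 * rC R + l * ‖Y i.1 - Y j.1‖ := by
  have h1 : PC R Y l i - PC R Y l j = (R i.1 i.2 - R j.1 j.2) + l • (Y i.1 - Y j.1) := by
    unfold PC; rw [smul_sub]; abel
  have h2 : ‖l • (Y i.1 - Y j.1)‖ = l * ‖Y i.1 - Y j.1‖ := by
    rw [norm_smul, Real.norm_eq_abs, abs_of_nonneg hl]
  rw [h1]
  refine (norm_add_le _ _).trans ?_
  have h4 := norm_sub_le (R i.1 i.2) (R j.1 j.2)
  have h5 := rC_le R i
  have h6 := rC_le R j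
  linarith

lemma PC_inj {R : ∀ m, Fin (K m) → X} (hR : ∀ m, Function.Injective (R m)) {Y : Fin n → X} {d : ℝ}
    (hd : ∀ m m', m ≠ m' → d ≤ ‖Y m - Y m'‖) {l : ℝ} (hl : 0 ≤ l) (hld : 2 * rC R < l * d) :
    Function.Injective (PC R Y l) := by
  intro i j hij
  by_cases h : i.1 = j.1
  · obtain ⟨a, b⟩ := i
    obtain ⟨a', b'⟩ := j
    simp only at h
    subst h
    unfold PC at hij
    simp only [add_left_inj] at hij
    rw [hR a hij]
  · have h1 := PC_dist_lower R hd hl h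
    rw [hij, sub_self, norm_zero] at h1
    linarith

/-- the nuclei of molecule `m` -/
def MC (K : Fin n → ℕ) (m : Fin n) : Finset ((m : Fin n) × Fin (K m)) :=
  Finset.univ.filter (fun i => i.1 = m)

lemma mem_MC {m : Fin n} {i : (m : Fin n) × Fin (K m)} : i ∈ MC K m ↔ i.1 = m := by
  unfold MC; simp

lemma FA_MC (γ : ℝ) (z : ∀ m, Fin (K m) → ℝ) (R : ∀ m, Fin (K m) → X) (Y : Fin n → X) (l : ℝ)
    (m : Fin n) : FA γ (zC z) (PC R Y l) (MC K m) = TFE γ (z m) (R m) := by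
  unfold FA
  rw [TFE_reindex γ (fun j : Fin (K m) => (⟨m, j⟩ : (m : Fin n) × Fin (K m)))
    (fun a b h => by simpa using h) _ _ ?_]
  · have e1 : (fun j : Fin (K m) => if (⟨m, j⟩ : (m : Fin n) × Fin (K m)) ∈ MC K m then
        zC z ⟨m, j⟩ else 0) = z m := by
      funext j
      have h1 : (⟨m, j⟩ : (m : Fin n) × Fin (K m)) ∈ MC K m := mem_MC.mpr rfl
      simp only [h1, if_true]
      rfl
    rw [e1]
    exact TFE_translate γ (z m) (R m) (l • Y m)
  · intro i hi
    rw [if_neg]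
    intro h
    apply hi
    rw [mem_MC] at h
    obtain ⟨a, b⟩ := i
    simp only at h
    subst h
    exact ⟨b, rfl⟩

lemma FA_pair (γ : ℝ) {ι : Type} [Fintype ι] [DecidableEq ι] (z : ι → ℝ) (P : ι → X) {p q : ι}
    (hpq : p ≠ q) :
    FA γ z P {p, q} = TFE γ ![z p, z q] ![P p, P q] ∧
    FA γ z P {p} = TFE γ ![z p, 0] ![P p, P q] ∧
    FA γ z P {q} = TFE γ ![0, z q] ![P p, P q] := by
  have hf : Function.Injective (![p, q] : Fin 2 → ι) := by
    intro i j hij
    fin_cases i <;> fin_cases j <;> simp at hij ⊢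
    · exact absurd hij hpq
    · exact absurd hij hpq.symm
  have hr : ∀ i, i ∉ range (![p, q] : Fin 2 → ι) → i ≠ p ∧ i ≠ q := by
    intro i hi
    constructor
    · rintro rfl; exact hi ⟨0, rfl⟩
    · rintro rfl; exact hi ⟨1, rfl⟩
  have hP : (fun j => P ((![p, q] : Fin 2 → ι) j)) = ![P p, P q] := by
    funext j; fin_cases j <;> rfl
  refine ⟨?_, ?_, ?_⟩
  · unfold FA
    rw [TFE_reindex γ _ hf _ _ (fun i hi => by
      obtain ⟨h1, h2⟩ := hr i hi
      simp [h1, h2]), hP]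
    congr 1
    funext j; fin_cases j <;> simp
  · unfold FA
    rw [TFE_reindex γ _ hf _ _ (fun i hi => by
      obtain ⟨h1, h2⟩ := hr i hi
      simp [h1]), hP]
    congr 1
    funext j; fin_cases j <;> simp [hpq.symm]
  · unfold FA
    rw [TFE_reindex γ _ hf _ _ (fun i hi => by
      obtain ⟨h1, h2⟩ := hr i hi
      simp [h2]), hP]
    congr 1
    funext j; fin_cases j <;> simp [hpq]

lemma FA_univ (γ : ℝ) {ι : Type} [Fintype ι] [DecidableEq ι] (z : ι → ℝ) (P : ι → X) :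
    FA γ z P Finset.univ = TFE γ z P := by
  unfold FA; simp

/-- the interaction of molecules dominates that of one nucleus of the first and one of the second -/
lemma delta_lower {γ : ℝ} (hγ : 0 < γ) {z : ∀ m, Fin (K m) → ℝ} (hz : ∀ m i, 0 ≤ z m i)
    {R : ∀ m, Fin (K m) → X} {Y : Fin n → X} {l : ℝ} (hinj : Function.Injective (PC R Y l))
    {p q : (m : Fin n) × Fin (K m)} (hpq : p.1 ≠ q.1) :
    G2 γ (zC z p) (zC z q) ![PC R Y l p, PC R Y l q] ≤
      TFE γ (zC z) (PC R Y l) - ∑ m, TFE γ (z m) (R m) := by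
  have hzC : ∀ i, 0 ≤ zC z i := fun i => hz _ _
  have hne : p ≠ q := fun h => hpq (by rw [h])
  obtain ⟨e1, e2, e3⟩ := FA_pair γ (zC z) (PC R Y l) hne
  have hdisj : ∀ m m', m ≠ m' → Disjoint (MC K m) (MC K m') := by
    intro m m' hm
    rw [Finset.disjoint_left]
    intro i hi hi'
    rw [mem_MC] at hi hi'
    exact hm (hi.symm.trans hi')
  have s1 := FA_super hγ hzC hinj (MC K p.1) ({p} ∪ MC K q.1)
  have a1 : MC K p.1 ∪ ({p} ∪ MC K q.1) = MC K p.1 ∪ MC K q.1 := by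
    ext i
    simp only [Finset.mem_union, Finset.mem_singleton, mem_MC]
    constructor
    · rintro (h | h | h)
      · exact Or.inl h
      · exact Or.inl (by rw [h])
      · exact Or.inr h
    · rintro (h | h)
      · exact Or.inl h
      · exact Or.inr (Or.inr h)
  have a2 : MC K p.1 ∩ ({p} ∪ MC K q.1) = {p} := by
    ext i
    simp only [Finset.mem_inter, Finset.mem_union, Finset.mem_singleton, mem_MC]
    constructor
    · rintro ⟨h1, h2 | h2⟩
      · exact h2
      · exact absurd (h1.symm.trans h2) hpq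
    · rintro rfl
      exact ⟨rfl, Or.inl rfl⟩
  rw [a1, a2] at s1
  have s2 := FA_super hγ hzC hinj (MC K q.1) {p, q}
  have a3 : MC K q.1 ∪ {p, q} = {p} ∪ MC K q.1 := by
    ext i
    simp only [Finset.mem_union, Finset.mem_singleton, Finset.mem_insert, mem_MC]
    constructor
    · rintro (h | h | h)
      · exact Or.inr h
      · exact Or.inl h
      · exact Or.inr (by rw [h])
    · rintro (h | h)
      · exact Or.inr (Or.inl h)
      · exact Or.inl h
  have a4 : MC K q.1 ∩ {p, q} = {q} := by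
    ext i
    simp only [Finset.mem_inter, Finset.mem_singleton, Finset.mem_insert, mem_MC]
    constructor
    · rintro ⟨h1, h2 | h2⟩
      · exact absurd (h2 ▸ h1) hpq
      · exact h2
    · rintro rfl
      exact ⟨rfl, Or.inr rfl⟩
  rw [a3, a4] at s2
  have s3 := FA_superadd hγ hzC hinj (MC K) hdisj (MC K p.1 ∪ MC K q.1)
    ((Finset.univ.erase p.1).erase q.1) (by
      intro m hm
      rw [Finset.mem_erase, Finset.mem_erase] at hm
      rw [Finset.disjoint_union_left]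
      exact ⟨hdisj _ _ (Ne.symm hm.2.1), hdisj _ _ (Ne.symm hm.1)⟩)
  have a5 : (MC K p.1 ∪ MC K q.1) ∪ ((Finset.univ.erase p.1).erase q.1).biUnion (MC K) =
      Finset.univ := by
    ext i
    simp only [Finset.mem_union, Finset.mem_biUnion, Finset.mem_erase, mem_MC, Finset.mem_univ,
      iff_true, and_true]
    by_cases h1 : i.1 = p.1
    · exact Or.inl (Or.inl h1)
    · by_cases h2 : i.1 = q.1
      · exact Or.inl (Or.inr h2)
      · exact Or.inr ⟨i.1, ⟨h2, h1⟩, rfl⟩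
  rw [a5, FA_univ] at s3
  have a6 : ∑ m, TFE γ (z m) (R m) = FA γ (zC z) (PC R Y l) (MC K p.1) +
      FA γ (zC z) (PC R Y l) (MC K q.1) +
      ∑ m ∈ (Finset.univ.erase p.1).erase q.1, FA γ (zC z) (PC R Y l) (MC K m) := by
    have b1 : ∀ m, TFE γ (z m) (R m) = FA γ (zC z) (PC R Y l) (MC K m) := fun m =>
      (FA_MC γ z R Y l m).symm
    rw [Finset.sum_congr rfl fun m _ => b1 m]
    rw [← Finset.add_sum_erase Finset.univ _ (Finset.mem_univ p.1),
      ← Finset.add_sum_erase (Finset.univ.erase p.1) _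
        (Finset.mem_erase.mpr ⟨Ne.symm hpq, Finset.mem_univ q.1⟩)]
    ring
  unfold G2
  rw [← e1, ← e2, ← e3, a6]
  linarith

theorem lower_half {γ : ℝ} (hγ : 0 < γ) (hn : 2 ≤ n) (hK : ∀ m, 0 < K m)
    {z : ∀ m, Fin (K m) → ℝ} (hz : ∀ m i, 0 < z m i) {R : ∀ m, Fin (K m) → X}
    (hR : ∀ m, Function.Injective (R m)) {Y : Fin n → X} (hY : Function.Injective Y) :
    ∃ c l0 : ℝ, 0 < c ∧ 0 < l0 ∧ ∀ l, l0 ≤ l →
      c * l⁻¹ ^ 7 ≤ TFE γ (zC z) (PC R Y l) - ∑ m, TFE γ (z m) (R m) := by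
  obtain ⟨d, hd0, hd⟩ := exists_min_dist hY
  set m0 : Fin n := ⟨0, by omega⟩ with hm0
  set m1 : Fin n := ⟨1, by omega⟩ with hm1
  have hm01 : m0 ≠ m1 := by simp [hm0, hm1]
  set p : (m : Fin n) × Fin (K m) := ⟨m0, ⟨0, hK m0⟩⟩ with hp
  set q : (m : Fin n) × Fin (K m) := ⟨m1, ⟨0, hK m1⟩⟩ with hq
  have hpq : p.1 ≠ q.1 := hm01
  obtain ⟨r0, hr0, hG⟩ := G2_lower hγ (hz m0 ⟨0, hK m0⟩) (hz m1 ⟨0, hK m1⟩)
  set r := rC R with hr
  have hr0' : 0 ≤ r := rC_nonneg R
  set B := 2 * r + ‖Y m0 - Y m1‖ with hB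
  have hYpos : 0 < ‖Y m0 - Y m1‖ := lt_of_lt_of_le hd0 (hd _ _ hm01)
  have hBpos : 0 < B := by positivity
  refine ⟨r0 ^ 7 * B⁻¹ ^ 7, max 1 ((2 * r + r0) / d), by positivity, by positivity, fun l hl => ?_⟩
  have hl1 : 1 ≤ l := (le_max_left _ _).trans hl
  have hl2 : 2 * r + r0 ≤ l * d := by
    have := (le_max_right _ _).trans hl
    rwa [div_le_iff₀ hd0] at this
  have hl0 : 0 < l := by linarith
  have hinj : Function.Injective (PC R Y l) := PC_inj hR hd hl0.le (by rw [← hr]; linarith)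
  have h1 := delta_lower hγ (fun m i => (hz m i).le) hinj hpq
  refine le_trans ?_ h1
  have hD1 := PC_dist_lower R hd hl0.le hpq
  have hD2 := PC_dist_upper R Y hl0.le p q
  rw [← hr] at hD1 hD2
  have h2 := hG ![PC R Y l p, PC R Y l q] (by
    simp only [Matrix.cons_val_zero, Matrix.cons_val_one]
    linarith)
  simp only [Matrix.cons_val_zero, Matrix.cons_val_one] at h2
  refine le_trans ?_ h2
  set D := ‖PC R Y l p - PC R Y l q‖ with hD
  have hDpos : 0 < D := by linarith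
  have hDB : D ≤ B * l := by
    have : B * l = 2 * r * l + l * ‖Y m0 - Y m1‖ := by rw [hB]; ring
    rw [this]
    have h3 : 2 * r ≤ 2 * r * l := by nlinarith
    have h4 : D ≤ 2 * r + l * ‖Y m0 - Y m1‖ := hD2
    linarith
  have h5 : (B * l)⁻¹ ≤ D⁻¹ := inv_anti₀ hDpos hDB
  calc r0 ^ 7 * B⁻¹ ^ 7 * l⁻¹ ^ 7 = r0 ^ 7 * (B * l)⁻¹ ^ 7 := by
        rw [mul_inv, mul_pow]; ring
    _ ≤ r0 ^ 7 * D⁻¹ ^ 7 := by gcongr

end molecules

end

end Pool.Agent.Helper96.TF
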