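import Pool.Agent.Helper96.TF.Coul

set_option autoImplicit false

open MeasureTheory Set Filter Topology

namespace Pool.Agent.Helper96.TF

noncomputable section

lemma lineDeriv_shift (f : X → ℝ) (a x : X) (i : Fin 3) :
    lineDeriv ℝ (fun z => f (z - a)) x (e i) = lineDeriv ℝ f (x - a) (e i) := by
  unfold lineDeriv
  congr 1
  funext t
  show f (x + t • e i - a) = f (x - a + t • e i)
  rw [add_sub_right_comm]

lemma ld_shift {f : X → ℝ} {a x : X} {i : Fin 3} (h : LineDifferentiableAt ℝ f (x - a) (e i)) :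
    LineDifferentiableAt ℝ (fun z => f (z - a)) x (e i) := by
  unfold LineDifferentiableAt at *
  have : (fun t : ℝ => f (x + t • e i - a)) = fun t : ℝ => f (x - a + t • e i) := by
    funext t; rw [add_sub_right_comm]
  rw [this]; exact h

lemma gg_shift (f g : X → ℝ) (a x : X) :
    gg (fun z => f (z - a)) (fun z => g (z - a)) x = gg f g (x - a) := by
  unfold gg
  simp_rw [lineDeriv_shift]

lemma lip_shift {f : X → ℝ} {C : NNReal} (h : LipschitzWith C f) (a : X) :
    LipschitzWith C (fun z => f (z - a)) := by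
  refine LipschitzWith.of_dist_le_mul fun x y => ?_
  have := h.dist_le_mul (x - a) (y - a)
  rwa [dist_sub_right] at this

lemma supp_shift {f : X → ℝ} (h : HasCompactSupport f) (a : X) :
    HasCompactSupport (fun z => f (z - a)) :=
  h.comp_homeomorph (Homeomorph.subRight a)

lemma Test.shift {f : X → ℝ} (h : Test f) (a : X) : Test (fun z => f (z - a)) := by
  obtain ⟨⟨C, hC⟩, h2⟩ := h
  exact ⟨⟨C, lip_shift hC a⟩, supp_shift h2 a⟩

lemma Fld.shift {σ w : X → ℝ} (h : Fld σ w) (a : X) :
    Fld (fun x => σ (x - a)) (fun x => w (x - a)) := by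
  obtain ⟨L, hL⟩ := h.wl
  obtain ⟨C, hC⟩ := h.wd
  obtain ⟨M, hM0, hM⟩ := h.bdd
  refine ⟨h.sc.comp (continuous_id.sub continuous_const), supp_shift h.ss a, ⟨L, lip_shift hL a⟩,
    ⟨C + M * ‖a‖, fun x => ?_⟩, fun x i => ld_shift (h.der _ i), fun i => ?_, fun ψ hψ => ?_, fun x => ?_⟩
  · have h1 := hC (x - a)
    have h2 := hM (x - a)
    have h3 : ‖x‖ ≤ ‖x - a‖ + ‖a‖ := by
      have := norm_add_le (x - a) a
      simpa using this
    calc |w (x - a)| * ‖x‖ ≤ |w (x - a)| * (‖x - a‖ + ‖a‖) := by gcongr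
      _ = |w (x - a)| * ‖x - a‖ + |w (x - a)| * ‖a‖ := by ring
      _ ≤ C + M * ‖a‖ := by gcongr
  · simp_rw [lineDeriv_shift]
    exact (h.dc i).comp (continuous_id.sub continuous_const)
  · have h1 := h.green (fun z => ψ (z - (-a))) (hψ.shift (-a))
    have h2 : ∫ x, gg (fun x => w (x - a)) ψ x = ∫ x, gg w (fun z => ψ (z - (-a))) x := by
      rw [← integral_sub_right_eq_self (fun x => gg w (fun z => ψ (z - (-a))) x) a]
      refine integral_congr_ae (ae_of_all _ fun x => ?_)
      simp only
      rw [← gg_shift]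
      congr 1
      funext z
      congr 1
      abel
    have h3 : ∫ x, σ (x - a) * ψ x = ∫ x, σ x * ψ (x - (-a)) := by
      rw [← integral_sub_right_eq_self (fun x => σ x * ψ (x - (-a))) a]
      refine integral_congr_ae (ae_of_all _ fun x => ?_)
      simp only
      congr 2
      abel
    rw [h2, h1, h3]
  · rw [← h.newton (x - a), ← integral_sub_right_eq_self (fun y => σ y / ‖x - a - y‖) a]
    refine integral_congr_ae (ae_of_all _ fun y => ?_)
    simp only
    congr 2
    abel

/-- smearing -/
def mix (u ρ : X → ℝ) (x : X) : ℝ := ∫ y, u (x - y) * ρ y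

lemma mix_int {u ρ : X → ℝ} (hu : Measurable u) {M : ℝ} (hM : ∀ x, |u x| ≤ M) (hρ : BC ρ) (x : X) :
    Integrable (fun y => u (x - y) * ρ y) := by
  have h := hρ.mul (f := fun y => u (x - y)) (hu.comp (by fun_prop)) (M := M) (fun y => hM _)
  refine h.int.congr (ae_of_all _ fun y => ?_)
  simp only; ring

lemma mix_cont {u ρ : X → ℝ} (hu : Continuous u) {M : ℝ} (hM : ∀ x, |u x| ≤ M) (hρ : BC ρ) :
    Continuous (mix u ρ) := by
  unfold mix
  refine continuous_of_dominated (bound := fun y => M * |ρ y|)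
    (fun x => (mix_int hu.measurable hM hρ x).aestronglyMeasurable)
    (fun x => ae_of_all _ fun y => ?_) (hρ.int.abs.const_mul M) (ae_of_all _ fun y => ?_)
  · rw [Real.norm_eq_abs, abs_mul]
    exact mul_le_mul_of_nonneg_right (hM _) (abs_nonneg _)
  · exact (hu.comp (continuous_id.sub continuous_const)).mul continuous_const

lemma mix_bdd {u ρ : X → ℝ} {M : ℝ} (hM : ∀ x, |u x| ≤ M) (hρ : BC ρ) (x : X) :
    |mix u ρ x| ≤ M * ∫ y, |ρ y| := by
  unfold mix
  rw [← integral_const_mul, ← Real.norm_eq_abs]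
  refine norm_integral_le_of_norm_le (hρ.int.abs.const_mul M) (ae_of_all _ fun y => ?_)
  rw [Real.norm_eq_abs, abs_mul]
  exact mul_le_mul_of_nonneg_right (hM _) (abs_nonneg _)

lemma mix_supp {s ρ : X → ℝ} (hs : HasCompactSupport s) (hρ : BC ρ) :
    HasCompactSupport (mix s ρ) := by
  obtain ⟨R1, hR1, h1⟩ := exists_radius hs
  obtain ⟨R2, hR2, h2⟩ := hρ.supp
  refine HasCompactSupport.intro (isCompact_closedBall (0 : X) (R1 + R2)) (fun x hx => ?_)
  rw [Metric.mem_closedBall, dist_zero_right, not_le] at hx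
  unfold mix
  rw [integral_eq_zero_of_ae]
  refine ae_of_all _ fun y => ?_
  simp only [Pi.zero_apply]
  rcases le_total R2 ‖y‖ with h | h
  · rw [h2 y h, mul_zero]
  · have h3 : R1 ≤ ‖x - y‖ := by
      have := norm_sub_norm_le x y
      linarith
    rw [image_eq_zero_of_notMem_tsupport (h1 _ h3), zero_mul]

lemma mix_lip {u ρ : X → ℝ} {L : NNReal} (hL : LipschitzWith L u) {M : ℝ} (hM : ∀ x, |u x| ≤ M)
    (hρ : BC ρ) : LipschitzWith (L * Real.toNNReal (∫ y, |ρ y|)) (mix u ρ) := by
  have h0 : 0 ≤ ∫ y, |ρ y| := integral_nonneg fun y => abs_nonneg _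
  refine LipschitzWith.of_dist_le_mul fun x x' => ?_
  unfold mix
  rw [Real.dist_eq, ← integral_sub (mix_int hL.continuous.measurable hM hρ x)
    (mix_int hL.continuous.measurable hM hρ x'), NNReal.coe_mul, Real.coe_toNNReal _ h0]
  have : (L : ℝ) * (∫ y, |ρ y|) * dist x x' = ∫ y, L * dist x x' * |ρ y| := by
    rw [integral_const_mul]; ring
  rw [this, ← Real.norm_eq_abs]
  refine norm_integral_le_of_norm_le (hρ.int.abs.const_mul _) (ae_of_all _ fun y => ?_)
  rw [Real.norm_eq_abs, ← sub_mul, abs_mul]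
  refine mul_le_mul_of_nonneg_right ?_ (abs_nonneg _)
  have := hL.dist_le_mul (x - y) (x' - y)
  rwa [dist_sub_right, Real.dist_eq] at this

lemma hasDerivAt_line {f : X → ℝ} {i : Fin 3} (h : ∀ x, LineDifferentiableAt ℝ f x (e i)) (z : X) (t : ℝ) :
    HasDerivAt (fun s : ℝ => f (z + s • e i)) (lineDeriv ℝ f (z + t • e i) (e i)) t := by
  have h1 : HasDerivAt (fun s : ℝ => f (z + t • e i + s • e i))
    (lineDeriv ℝ f (z + t • e i) (e i)) (t - t) := by
    rw [sub_self]; exact (h (z + t • e i)).hasLineDerivAt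
  have h2 := h1.comp_sub_const t t
  refine h2.congr_of_eventuallyEq (Eventually.of_forall fun s => ?_)
  simp only
  congr 1
  rw [add_assoc, ← add_smul]
  congr 2
  ring

lemma mix_hasLineDerivAt {u ρ : X → ℝ} {L : NNReal} (hL : LipschitzWith L u) {M : ℝ}
    (hM : ∀ x, |u x| ≤ M) (hd : ∀ x i, LineDifferentiableAt ℝ u x (e i)) (hρ : BC ρ) (x : X) (i : Fin 3) :
    HasLineDerivAt ℝ (mix u ρ) (mix (fun z => lineDeriv ℝ u z (e i)) ρ x) x (e i) := by
  have hbd : ∀ z, |lineDeriv ℝ u z (e i)| ≤ L := fun z => lineDeriv_bdd hL z i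
  have hmeas := lineDeriv_meas hL.continuous i
  have h := hasDerivAt_integral_of_dominated_loc_of_deriv_le (μ := (volume : Measure X)) (x₀ := (0:ℝ))
    (F := fun (t : ℝ) (y : X) => u (x + t • e i - y) * ρ y)
    (F' := fun (t : ℝ) (y : X) => lineDeriv ℝ u (x + t • e i - y) (e i) * ρ y)
    (s := univ) (bound := fun y => L * |ρ y|) univ_mem
    (Eventually.of_forall fun t => (mix_int hL.continuous.measurable hM hρ _).aestronglyMeasurable)
    (mix_int hL.continuous.measurable hM hρ _)
    (mix_int hmeas hbd hρ _).aestronglyMeasurable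
    (ae_of_all _ fun y t _ => ?_) (hρ.int.abs.const_mul _) (ae_of_all _ fun y t _ => ?_)
  · have h2 := h.2
    simp only [zero_smul, add_zero] at h2
    exact h2
  · rw [Real.norm_eq_abs, abs_mul]
    exact mul_le_mul_of_nonneg_right (hbd _) (abs_nonneg _)
  · have h3 := (hasDerivAt_line (fun x => hd x i) (x - y) t).mul_const (ρ y)
    have e1 : (fun s : ℝ => u (x - y + s • e i) * ρ y) = fun s : ℝ => u (x + s • e i - y) * ρ y := by
      funext s; rw [add_sub_right_comm]
    rw [e1, ← add_sub_right_comm] at h3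
    exact h3

/-- integrals of mixtures against integrable functions -/
lemma mix_pair {u ρ g : X → ℝ} (hu : Measurable u) {M : ℝ} (hM : ∀ x, |u x| ≤ M) (hρ : BC ρ)
    (hg : Integrable g) :
    ∫ x, mix u ρ x * g x = ∫ y, ρ y * ∫ x, u (x - y) * g x := by
  have h1 : Integrable (fun p : X × X => u (p.1 - p.2) * ρ p.2 * g p.1) (volume.prod volume) := by
    have h2 : Integrable (fun p : X × X => g p.1 * ρ p.2) (volume.prod volume) := hg.mul_prod hρ.int
    have h3 : Integrable (fun p : X × X => u (p.1 - p.2) * (g p.1 * ρ p.2)) (volume.prod volume) := by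
      refine h2.bdd_mul (c := M) (hu.comp (by fun_prop)).aestronglyMeasurable (ae_of_all _ fun p => ?_)
      rw [Real.norm_eq_abs]; exact hM _
    refine h3.congr (ae_of_all _ fun p => ?_)
    simp only; ring
  calc ∫ x, mix u ρ x * g x = ∫ x, ∫ y, u (x - y) * ρ y * g x := by
        refine integral_congr_ae (ae_of_all _ fun x => ?_)
        simp only
        unfold mix
        rw [integral_mul_const]
    _ = ∫ y, ∫ x, u (x - y) * ρ y * g x := integral_integral_swap h1
    _ = _ := by
        refine integral_congr_ae (ae_of_all _ fun y => ?_)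
        simp only
        rw [← integral_const_mul]
        refine integral_congr_ae (ae_of_all _ fun x => ?_)
        simp only; ring

theorem Fld.mixed {s u ρ : X → ℝ} (h : Fld s u) (hρ : BC ρ) : Fld (mix s ρ) (mix u ρ) := by
  obtain ⟨L, hL⟩ := h.wl
  obtain ⟨M, hM0, hM⟩ := h.bdd
  obtain ⟨S, hS0, hS⟩ := h.bddS
  obtain ⟨C, hC⟩ := h.wd
  have hld := mix_hasLineDerivAt hL hM h.der hρ
  have hscont : Continuous (mix s ρ) := mix_cont h.sc hS hρ
  have hssupp := mix_supp h.ss hρ
  refine ⟨hscont, hssupp, ⟨_, mix_lip hL hM hρ⟩, ?_, fun x i => (hld x i).lineDifferentiableAt,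
    fun i => ?_, fun ψ hψ => ?_, fun x => ?_⟩
  · obtain ⟨R, hR, hsR⟩ := hρ.supp
    refine ⟨(C + M * R) * ∫ y, |ρ y|, fun x => ?_⟩
    unfold mix
    rw [← integral_const_mul]
    have e1 : |∫ y, u (x - y) * ρ y| * ‖x‖ = |∫ y, ‖x‖ * (u (x - y) * ρ y)| := by
      rw [integral_const_mul, abs_mul, abs_of_nonneg (norm_nonneg x)]; ring
    rw [e1, ← Real.norm_eq_abs]
    refine norm_integral_le_of_norm_le (hρ.int.abs.const_mul _) (ae_of_all _ fun y => ?_)
    rw [Real.norm_eq_abs, abs_mul, abs_mul, abs_of_nonneg (norm_nonneg x), ← mul_assoc]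
    rcases le_total R ‖y‖ with h' | h'
    · rw [hsR y h']; simp
    · refine mul_le_mul_of_nonneg_right ?_ (abs_nonneg _)
      have h3 : ‖x‖ ≤ ‖x - y‖ + ‖y‖ := by
        have := norm_add_le (x - y) y
        simpa using this
      have h1 := hC (x - y)
      have h2 := hM (x - y)
      calc ‖x‖ * |u (x - y)| ≤ (‖x - y‖ + R) * |u (x - y)| := by
            gcongr; linarith
        _ = |u (x - y)| * ‖x - y‖ + |u (x - y)| * R := by ring
        _ ≤ C + M * R := by gcongr
  · simp_rw [fun x => (hld x i).lineDeriv]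
    exact mix_cont (h.dc i) (fun z => lineDeriv_bdd hL z i) hρ
  · have hψi : ∀ i, Integrable (fun x => lineDeriv ℝ ψ x (e i)) := integrable_lineDeriv_test hψ
    have hsh : ∀ y, LipschitzWith L (fun x => u (x - y)) := fun y => lip_shift hL y
    have hψint : Integrable ψ := hψ.cont.integrable_of_hasCompactSupport hψ.2
    have hcomp : ∀ y i, Integrable (fun x => lineDeriv ℝ u (x - y) (e i) * lineDeriv ℝ ψ x (e i)) := by
      intro y i
      have := integrable_mul_lineDeriv_test (lineDeriv_meas (hsh y).continuous i)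
        (fun x => lineDeriv_bdd (hsh y) x i) hψ i
      simp_rw [lineDeriv_shift] at this
      exact this
    have h1 : ∀ i, ∫ x, mix (fun z => lineDeriv ℝ u z (e i)) ρ x * lineDeriv ℝ ψ x (e i) =
        ∫ y, ρ y * ∫ x, lineDeriv ℝ u (x - y) (e i) * lineDeriv ℝ ψ x (e i) := fun i =>
      mix_pair (lineDeriv_meas hL.continuous i) (fun z => lineDeriv_bdd hL z i) hρ (hψi i)
    have h2 : ∫ x, gg (mix u ρ) ψ x =
        ∑ i, ∫ x, mix (fun z => lineDeriv ℝ u z (e i)) ρ x * lineDeriv ℝ ψ x (e i) := by
      unfold gg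
      rw [← integral_finsetSum]
      · refine integral_congr_ae (ae_of_all _ fun x => ?_)
        simp only
        exact Finset.sum_congr rfl fun i _ => by rw [(hld x i).lineDeriv]
      · intro i _
        exact integrable_mul_lineDeriv_test
          (mix_cont (h.dc i) (fun z => lineDeriv_bdd hL z i) hρ).measurable
          (mix_bdd (fun z => lineDeriv_bdd hL z i) hρ) hψ i
    rw [h2]
    simp_rw [h1]
    have hbound : ∀ i y, |∫ x, lineDeriv ℝ u (x - y) (e i) * lineDeriv ℝ ψ x (e i)| ≤
        L * ∫ x, |lineDeriv ℝ ψ x (e i)| := by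
      intro i y
      rw [← integral_const_mul, ← Real.norm_eq_abs]
      refine norm_integral_le_of_norm_le ((hψi i).abs.const_mul _) (ae_of_all _ fun x => ?_)
      rw [Real.norm_eq_abs, abs_mul]
      exact mul_le_mul_of_nonneg_right (lineDeriv_bdd hL _ i) (abs_nonneg _)
    have hmeas : ∀ i, Measurable (fun y => ∫ x, lineDeriv ℝ u (x - y) (e i) * lineDeriv ℝ ψ x (e i)) := by
      intro i
      have : StronglyMeasurable (fun p : X × X =>
          lineDeriv ℝ u (p.2 - p.1) (e i) * lineDeriv ℝ ψ p.2 (e i)) := by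
        apply Measurable.stronglyMeasurable
        exact ((lineDeriv_meas hL.continuous i).comp (by fun_prop)).mul
          ((lineDeriv_meas hψ.cont i).comp measurable_snd)
      exact this.integral_prod_right.measurable
    rw [← integral_finsetSum]
    · have h3 : ∀ y, ∑ i, ρ y * ∫ x, lineDeriv ℝ u (x - y) (e i) * lineDeriv ℝ ψ x (e i) =
          4 * Real.pi * (ρ y * ∫ x, s (x - y) * ψ x) := by
        intro y
        have h4 := (h.shift y).green ψ hψ
        unfold gg at h4
        rw [integral_finsetSum] at h4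
        · simp_rw [lineDeriv_shift] at h4
          rw [← Finset.mul_sum, h4]; ring
        · intro i _
          simp_rw [lineDeriv_shift]
          exact hcomp y i
      simp_rw [h3]
      rw [integral_const_mul, ← mix_pair h.sc.measurable hS hρ hψint]
    · intro i _
      exact (hρ.mul (hmeas i) (hbound i)).int
  · have h5 : ∀ y, ∫ z, s (z - y) / ‖x - z‖ = u (x - y) := fun y => (h.shift y).newton x
    have h6 : ∫ z, mix s ρ z / ‖x - z‖ = ∫ z, ∫ y, s (z - y) * ρ y / ‖x - z‖ := by
      refine integral_congr_ae (ae_of_all _ fun z => ?_)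
      simp only
      unfold mix
      rw [integral_div]
    rw [h6, integral_integral_swap]
    · unfold mix
      refine integral_congr_ae (ae_of_all _ fun y => ?_)
      simp only
      rw [← h5 y, ← integral_mul_const]
      refine integral_congr_ae (ae_of_all _ fun z => ?_)
      simp only; ring
    · obtain ⟨R1, hR1, h1⟩ := exists_radius h.ss
      obtain ⟨R2, hR2, h2⟩ := hρ.supp
      -- dominate by S |ρ y| 1_K(z) / |x - z|
      have hK : BC ((Metric.closedBall (0 : X) (R1 + R2)).indicator (fun _ => (1:ℝ))) := by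
        refine ⟨measurable_const.indicator Metric.isClosed_closedBall.measurableSet,
          ⟨1, zero_le_one, fun z => ?_⟩, ⟨R1 + R2 + 1, by positivity, fun z hz => ?_⟩⟩
        · by_cases hz : z ∈ Metric.closedBall (0 : X) (R1 + R2)
          · rw [indicator_of_mem hz]; simp
          · rw [indicator_of_notMem hz]; simp
        · rw [indicator_of_notMem]
          rw [Metric.mem_closedBall, dist_zero_right]; linarith
      have h7 : Integrable (fun p : X × X =>
          ((Metric.closedBall (0 : X) (R1 + R2)).indicator (fun _ => (1:ℝ)) p.1 / ‖x - p.1‖) *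
          (S * |ρ p.2|)) (volume.prod volume) := (hK.pot x).mul_prod (hρ.int.abs.const_mul S)
      refine h7.mono' ?_ (ae_of_all _ fun p => ?_)
      · apply Measurable.aestronglyMeasurable
        unfold Function.uncurry
        exact ((h.sc.measurable.comp (by fun_prop)).mul (hρ.meas.comp measurable_snd)).div (by fun_prop)
      · unfold Function.uncurry
        simp only
        rw [Real.norm_eq_abs, abs_div, abs_mul, abs_of_nonneg (norm_nonneg _)]
        by_cases hz : p.1 ∈ Metric.closedBall (0 : X) (R1 + R2)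
        · rw [indicator_of_mem hz]
          have : |s (p.1 - p.2)| * |ρ p.2| / ‖x - p.1‖ = 1 / ‖x - p.1‖ * (|s (p.1 - p.2)| * |ρ p.2|) := by ring
          rw [this]
          gcongr
          exact hS _
        · have h8 : s (p.1 - p.2) * ρ p.2 = 0 := by
            rw [Metric.mem_closedBall, dist_zero_right, not_le] at hz
            rcases le_total R2 ‖p.2‖ with h' | h'
            · rw [h2 _ h', mul_zero]
            · have h3 : R1 ≤ ‖p.1 - p.2‖ := by
                have := norm_sub_norm_le p.1 p.2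
                linarith
              rw [image_eq_zero_of_notMem_tsupport (h1 _ h3), zero_mul]
          rw [← abs_mul, h8, indicator_of_notMem hz]
          simp

end

end Pool.Agent.Helper96.TF
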