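import Pool.Agent.Helper67.TF.Weak

set_option autoImplicit false

open MeasureTheory Set Filter Topology

namespace Pool.Agent.Helper96.TF

noncomputable section

/-- the Coulomb pairing -/
def DD (ρ τ : X → ℝ) : ℝ := ∫ x, ∫ y, ρ x * τ y / ‖x - y‖

lemma Dself_eq (ρ : X → ℝ) : Dself ρ = (1 / 2) * DD ρ ρ := rfl

lemma DD_symm {ρ τ : X → ℝ} (h : BC ρ) (h' : BC τ) : DD ρ τ = DD τ ρ := by
  unfold DD
  rw [integral_integral_swap (h.prod h')]
  refine integral_congr_ae (ae_of_all _ fun x => ?_)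
  simp only
  refine integral_congr_ae (ae_of_all _ fun y => ?_)
  simp only
  rw [norm_sub_rev, mul_comm]

lemma DD_fld {σ w : X → ℝ} (h : Fld σ w) (ρ : X → ℝ) : DD ρ σ = ∫ x, ρ x * w x := by
  unfold DD
  refine integral_congr_ae (ae_of_all _ fun x => ?_)
  simp only
  rw [← h.newton x, ← integral_const_mul]
  refine integral_congr_ae (ae_of_all _ fun y => ?_)
  simp only; ring

lemma DD_nonneg {ρ τ : X → ℝ} (h : ∀ x, 0 ≤ ρ x) (h' : ∀ x, 0 ≤ τ x) : 0 ≤ DD ρ τ :=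
  integral_nonneg fun x => integral_nonneg fun y =>
    div_nonneg (mul_nonneg (h x) (h' y)) (norm_nonneg _)

lemma DD_inner_int {ρ τ : X → ℝ} (h : BC ρ) (h' : BC τ) :
    Integrable (fun x => ∫ y, ρ x * τ y / ‖x - y‖) := (h.prod h').integral_prod_left

lemma BC.pot' {ρ τ : X → ℝ} (h' : BC τ) (x : X) : Integrable (fun y => ρ x * τ y / ‖x - y‖) := by
  refine ((h'.pot x).const_mul (ρ x)).congr (ae_of_all _ fun y => ?_)
  simp only; ring

lemma DD_lin {ρ τ τ' : X → ℝ} (h : BC ρ) (h1 : BC τ) (h2 : BC τ') (a b : ℝ) :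
    DD ρ (fun y => a * τ y + b * τ' y) = a * DD ρ τ + b * DD ρ τ' := by
  unfold DD
  rw [← integral_const_mul, ← integral_const_mul, ← integral_add ((DD_inner_int h h1).const_mul a)
    ((DD_inner_int h h2).const_mul b)]
  refine integral_congr_ae (ae_of_all _ fun x => ?_)
  simp only
  rw [← integral_const_mul, ← integral_const_mul, ← integral_add ((h1.pot' x).const_mul a)
    ((h2.pot' x).const_mul b)]
  refine integral_congr_ae (ae_of_all _ fun y => ?_)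
  simp only; ring

lemma BC.comb {ρ τ : X → ℝ} (h : BC ρ) (h' : BC τ) (a b : ℝ) : BC (fun x => a * ρ x + b * τ x) :=
  (h.const_mul a).add (h'.const_mul b)

lemma DD_quad {ρ τ : X → ℝ} (h : BC ρ) (h' : BC τ) (a b : ℝ) :
    DD (fun y => a * ρ y + b * τ y) (fun y => a * ρ y + b * τ y) =
      a ^ 2 * DD ρ ρ + 2 * (a * b) * DD ρ τ + b ^ 2 * DD τ τ := by
  have hc := h.comb h' a b
  rw [DD_lin hc h h', DD_symm hc h, DD_symm hc h', DD_lin h h h', DD_lin h' h h', DD_symm h' h]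
  ring

lemma DD_mono {ρ τ ρ' τ' : X → ℝ} (h : BC ρ) (h1 : BC τ) (h2 : BC ρ') (h3 : BC τ')
    (h0 : ∀ x, 0 ≤ ρ x) (h0' : ∀ x, 0 ≤ τ x) (hle : ∀ x, ρ x ≤ ρ' x) (hle' : ∀ x, τ x ≤ τ' x) :
    DD ρ τ ≤ DD ρ' τ' := by
  unfold DD
  refine integral_mono (DD_inner_int h h1) (DD_inner_int h2 h3) fun x => ?_
  refine integral_mono (h1.pot' x) (h3.pot' x) fun y => ?_
  simp only
  refine div_le_div_of_nonneg_right ?_ (norm_nonneg _)
  exact mul_le_mul (hle x) (hle' y) (h0' y) ((h0 x).trans (hle x))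

/-- the Thomas-Fermi functional with a smeared background -/
def Gf (γ : ℝ) (ν V ρ : X → ℝ) : ℝ :=
  (3 / 5) * γ * (∫ x, ρ x ^ (5 / 3 : ℝ)) - (∫ x, V x * ρ x) + Dself ρ + (1 / 2) * ∫ x, V x * ν x

lemma BC.rpw {ρ : X → ℝ} (h : BC ρ) (h0 : ∀ x, 0 ≤ ρ x) {p : ℝ} (hp : 0 < p) :
    BC (fun x => ρ x ^ p) := by
  obtain ⟨N, hN, hb⟩ := h.bdd
  obtain ⟨R, hR, hs⟩ := h.supp
  refine ⟨h.meas.pow_const p, ⟨N ^ p, by positivity, fun x => ?_⟩, ⟨R, hR, fun x hx => ?_⟩⟩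
  · rw [abs_of_nonneg (Real.rpow_nonneg (h0 x) p)]
    exact Real.rpow_le_rpow (h0 x) ((le_abs_self _).trans (hb x)) hp.le
  · rw [hs x hx, Real.zero_rpow hp.ne']

lemma F_convex {ρ τ : X → ℝ} (h : BC ρ) (h' : BC τ) (h0 : ∀ x, 0 ≤ ρ x) (h0' : ∀ x, 0 ≤ τ x)
    {t : ℝ} (ht0 : 0 ≤ t) (ht1 : t ≤ 1) :
    ∫ x, ((1 - t) * ρ x + t * τ x) ^ (5 / 3 : ℝ) ≤
      (1 - t) * (∫ x, ρ x ^ (5 / 3 : ℝ)) + t * ∫ x, τ x ^ (5 / 3 : ℝ) := by
  have hp : (0:ℝ) < 5 / 3 := by norm_num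
  have hc := h.comb h' (1 - t) t
  have hc0 : ∀ x, 0 ≤ (1 - t) * ρ x + t * τ x := fun x =>
    add_nonneg (mul_nonneg (by linarith) (h0 x)) (mul_nonneg ht0 (h0' x))
  rw [← integral_const_mul, ← integral_const_mul,
    ← integral_add ((h.rpw h0 hp).int.const_mul _) ((h'.rpw h0' hp).int.const_mul _)]
  refine integral_mono (hc.rpw hc0 hp).int
    (((h.rpw h0 hp).int.const_mul _).add ((h'.rpw h0' hp).int.const_mul _)) fun x => ?_
  have := (convexOn_rpow (p := 5 / 3) (by norm_num)).2 (h0 x) (h0' x)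
    (show (0:ℝ) ≤ 1 - t by linarith) ht0 (by ring)
  simpa [smul_eq_mul] using this

lemma int_lin {V ρ τ : X → ℝ} (hV : Measurable V) {M : ℝ} (hM : ∀ x, |V x| ≤ M) (h : BC ρ) (h' : BC τ)
    (a b : ℝ) : ∫ x, V x * (a * ρ x + b * τ x) = a * (∫ x, V x * ρ x) + b * ∫ x, V x * τ x := by
  have i1 : Integrable (fun x => V x * ρ x) := by
    refine (h.mul hV hM).int.congr (ae_of_all _ fun x => ?_)
    simp only; ring
  have i2 : Integrable (fun x => V x * τ x) := by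
    refine (h'.mul hV hM).int.congr (ae_of_all _ fun x => ?_)
    simp only; ring
  rw [← integral_const_mul, ← integral_const_mul, ← integral_add (i1.const_mul a) (i2.const_mul b)]
  refine integral_congr_ae (ae_of_all _ fun x => ?_)
  simp only; ring

/-- positive part of a potential above a level -/
lemma pos_test {σ w : X → ℝ} (h : Fld σ w) {μ : ℝ} (hμ : 0 < μ) :
    Test (fun x => max (w x - μ) 0) := by
  obtain ⟨L, hL⟩ := h.wl
  obtain ⟨C, hC⟩ := h.wd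
  refine ⟨⟨L, ?_⟩, ?_⟩
  · have h1 : LipschitzWith L (fun x => w x - μ) := by
      refine LipschitzWith.of_dist_le_mul fun x y => ?_
      have := hL.dist_le_mul x y
      rwa [dist_sub_right]
    exact h1.max_const 0
  · refine HasCompactSupport.intro (isCompact_closedBall (0 : X) (|C| / μ)) (fun x hx => ?_)
    rw [Metric.mem_closedBall, dist_zero_right, not_le, div_lt_iff₀ hμ] at hx
    have h1 := hC x
    have h2 := le_abs_self C
    have hx0 : 0 < ‖x‖ := by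
      by_contra hc
      have : ‖x‖ = 0 := le_antisymm (not_lt.mp hc) (norm_nonneg x)
      rw [this, zero_mul] at hx
      exact absurd hx (not_lt.mpr (abs_nonneg C))
    have h3 : |w x| * ‖x‖ < μ * ‖x‖ := by nlinarith
    have h4 : |w x| < μ := lt_of_mul_lt_mul_right h3 hx0.le
    have h5 := le_abs_self (w x)
    exact max_eq_right (by linarith)

/-- the Dirichlet integral of the positive part -/
lemma pos_dir {σ w : X → ℝ} (h : Fld σ w) {μ : ℝ} (hμ : 0 < μ) :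
    Dir (fun x => max (w x - μ) 0) = (1 / 2) * ∫ x, σ x * max (w x - μ) 0 := by
  have ht := pos_test h hμ
  obtain ⟨D, hD⟩ := ht.1
  have hae : ∀ᵐ x, gg (fun x => max (w x - μ) 0) (fun x => max (w x - μ) 0) x =
      gg w (fun x => max (w x - μ) 0) x := by
    filter_upwards [ae_ld hD] with x hx
    unfold gg
    refine Finset.sum_congr rfl fun i _ => ?_
    rcases lt_trichotomy (w x) μ with h1 | h1 | h1
    · have h2 : (fun x => max (w x - μ) 0) =ᶠ[𝓝 x] (fun _ => (0:ℝ)) := by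
        have : {y : X | w y < μ} ∈ 𝓝 x := (isOpen_lt h.wc continuous_const).mem_nhds h1
        filter_upwards [this] with y hy
        exact max_eq_right (by have : w y < μ := hy; linarith)
      have h3 : lineDeriv ℝ (fun x => max (w x - μ) 0) x (e i) = 0 := by
        rw [ld_of_eq h2]; simp [lineDeriv]
      rw [h3]; ring
    · have h3 : lineDeriv ℝ (fun x => max (w x - μ) 0) x (e i) = 0 := by
        have hd := (hx i).hasLineDerivAt
        have hmin : IsLocalMin (fun t : ℝ => max (w (x + t • e i) - μ) 0) 0 := by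
          refine Eventually.of_forall fun t => ?_
          simp only [zero_smul, add_zero, h1, sub_self, max_self]
          exact le_max_right _ _
        exact hmin.hasDerivAt_eq_zero hd
      rw [h3]; ring
    · have h2 : (fun x => max (w x - μ) 0) =ᶠ[𝓝 x] (fun x => w x - μ) := by
        have : {y : X | μ < w y} ∈ 𝓝 x := (isOpen_lt continuous_const h.wc).mem_nhds h1
        filter_upwards [this] with y hy
        exact max_eq_left (by have : μ < w y := hy; linarith)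
      have h3 : lineDeriv ℝ (fun x => max (w x - μ) 0) x (e i) = lineDeriv ℝ w x (e i) := by
        rw [ld_of_eq h2]
        exact HasLineDerivAt.lineDeriv (HasDerivAt.sub_const μ (h.der x i).hasLineDerivAt)
      rw [h3]
  unfold Dir
  rw [integral_congr_ae hae, h.green _ ht]
  have := Real.pi_pos
  field_simp
  ring


lemma Fld.bc_pos {σ w : X → ℝ} (h : Fld σ w) {μ : ℝ} (hμ : 0 < μ) {κ p : ℝ} (hp : 0 < p) :
    BC (fun x => κ * (max (w x - μ) 0) ^ p) := by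
  have ht := pos_test h hμ
  exact ((BC.of_cont ht.cont ht.2).rpw (fun x => le_max_right _ _) hp).const_mul κ

lemma exists_level {σ w : X → ℝ} (h : Fld σ w) {κ η0 Z : ℝ} (hκ : 0 < κ) (hη : 0 < η0) (hZ : 0 ≤ Z) :
    ∃ μ, η0 ≤ μ ∧ (∫ x, κ * (max (w x - μ) 0) ^ (3 / 2 : ℝ)) ≤ Z ∧
      (μ = η0 ∨ ∫ x, κ * (max (w x - μ) 0) ^ (3 / 2 : ℝ) = Z) := by
  by_cases h0 : (∫ x, κ * (max (w x - η0) 0) ^ (3 / 2 : ℝ)) ≤ Z
  · exact ⟨η0, le_rfl, h0, Or.inl rfl⟩
  rw [not_le] at h0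
  obtain ⟨M, hM0, hM⟩ := h.bdd
  set b := max M η0 with hb
  have hηb : η0 ≤ b := le_max_right _ _
  have hN1 : ∫ x, κ * (max (w x - b) 0) ^ (3 / 2 : ℝ) = 0 := by
    rw [integral_eq_zero_of_ae]
    refine ae_of_all _ fun x => ?_
    have h1 : w x ≤ b := (le_abs_self _).trans ((hM x).trans (le_max_left _ _))
    simp only [Pi.zero_apply]
    rw [max_eq_right (by linarith), Real.zero_rpow (by norm_num), mul_zero]
  have hcont : ContinuousOn (fun μ => ∫ x, κ * (max (w x - μ) 0) ^ (3 / 2 : ℝ)) (Icc η0 b) := by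
    refine continuousOn_of_dominated (bound := fun x => κ * (max (w x - η0) 0) ^ (3 / 2 : ℝ)) ?_ ?_
      (h.bc_pos hη (by norm_num)).int ?_
    · intro μ hμ
      exact (h.bc_pos (lt_of_lt_of_le hη hμ.1) (by norm_num)).meas.aestronglyMeasurable
    · intro μ hμ
      refine ae_of_all _ fun x => ?_
      rw [Real.norm_eq_abs, abs_of_nonneg (by positivity)]
      have : max (w x - μ) 0 ≤ max (w x - η0) 0 := max_le_max_right 0 (by linarith [hμ.1])
      gcongr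
    · refine ae_of_all _ fun x => ?_
      refine Continuous.continuousOn ?_
      refine continuous_const.mul ?_
      refine Continuous.rpow_const ?_ (fun _ => Or.inr (by norm_num))
      exact (continuous_const.sub continuous_id).max continuous_const
  have hivt := intermediate_value_Icc' hηb hcont
  have hmem : Z ∈ Icc (∫ x, κ * (max (w x - b) 0) ^ (3 / 2 : ℝ))
      (∫ x, κ * (max (w x - η0) 0) ^ (3 / 2 : ℝ)) := by
    rw [hN1]; exact ⟨hZ, h0.le⟩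
  obtain ⟨μ, hμ, hμZ⟩ := hivt hmem
  simp only at hμZ
  exact ⟨μ, hμ.1, hμZ.le, Or.inr hμZ⟩

lemma kappa_eq {γ : ℝ} (hγ : 0 < γ) :
    γ * (γ ^ (-(3 / 2) : ℝ)) ^ (5 / 3 : ℝ) = γ ^ (-(3 / 2) : ℝ) := by
  rw [← Real.rpow_mul hγ.le]
  nth_rewrite 1 [← Real.rpow_one γ]
  rw [← Real.rpow_add hγ]
  norm_num

lemma pow_eq {κ a : ℝ} (hκ : 0 ≤ κ) (ha : 0 ≤ a) :
    (κ * a ^ (3 / 2 : ℝ)) ^ (5 / 3 : ℝ) = κ ^ (5 / 3 : ℝ) * a ^ (5 / 2 : ℝ) := by
  rw [Real.mul_rpow hκ (Real.rpow_nonneg ha _), ← Real.rpow_mul ha]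
  norm_num

lemma pow_eq' {a : ℝ} (ha : 0 ≤ a) : a * a ^ (3 / 2 : ℝ) = a ^ (5 / 2 : ℝ) := by
  rcases eq_or_lt_of_le ha with h | h
  · subst h
    rw [Real.zero_rpow (by norm_num), Real.zero_rpow (by norm_num), mul_zero]
  · nth_rewrite 1 [← Real.rpow_one a]
    rw [← Real.rpow_add h]
    norm_num

/-- the dual functional at the positive part of a potential -/
lemma J_pos {γ : ℝ} (hγ : 0 < γ) {ν V ρ u : X → ℝ} (hF : Fld ν V) (hρ : Fld ρ u) {μ : ℝ} (hμ : 0 < μ) :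
    J (γ ^ (-(3 / 2) : ℝ)) ν (fun x => max (V x - u x - μ) 0) =
      (1 / 2) * (∫ x, ν x * max (V x - u x - μ) 0) + (1 / 2) * (∫ x, ρ x * max (V x - u x - μ) 0) +
      (3 / 5) * γ * (∫ x, (γ ^ (-(3 / 2) : ℝ) * (max (V x - u x - μ) 0) ^ (3 / 2 : ℝ)) ^ (5 / 3 : ℝ)) -
      (∫ x, V x * (γ ^ (-(3 / 2) : ℝ) * (max (V x - u x - μ) 0) ^ (3 / 2 : ℝ))) +
      (∫ x, u x * (γ ^ (-(3 / 2) : ℝ) * (max (V x - u x - μ) 0) ^ (3 / 2 : ℝ))) +
      μ * ∫ x, γ ^ (-(3 / 2) : ℝ) * (max (V x - u x - μ) 0) ^ (3 / 2 : ℝ) := by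
  set κ := γ ^ (-(3 / 2) : ℝ) with hκ
  have hκ0 : 0 < κ := Real.rpow_pos_of_pos hγ _
  have hw : Fld (fun x => ν x - ρ x) (fun x => V x - u x) := hF.sub hρ
  have ht := pos_test hw hμ
  obtain ⟨N, hN0, hN⟩ := ht.bdd
  have hdir := pos_dir hw hμ
  have hbc : BC (fun x => κ * (max (V x - u x - μ) 0) ^ (3 / 2 : ℝ)) :=
    hw.bc_pos hμ (by norm_num)
  have hbc2 : BC (fun x => (max (V x - u x - μ) 0) ^ (5 / 2 : ℝ)) :=
    (BC.of_cont ht.cont ht.2).rpw (fun x => le_max_right _ _) (by norm_num)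
  unfold J Pot
  rw [hdir]
  have e1 : ∫ x, (κ * (max (V x - u x - μ) 0) ^ (3 / 2 : ℝ)) ^ (5 / 3 : ℝ) =
      κ ^ (5 / 3 : ℝ) * ∫ x, (max (V x - u x - μ) 0) ^ (5 / 2 : ℝ) := by
    rw [← integral_const_mul]
    refine integral_congr_ae (ae_of_all _ fun x => ?_)
    exact pow_eq hκ0.le (le_max_right _ _)
  have e2 : ∫ x, (max (max (V x - u x - μ) 0) 0) ^ (5 / 2 : ℝ) =
      ∫ x, (max (V x - u x - μ) 0) ^ (5 / 2 : ℝ) := by
    refine integral_congr_ae (ae_of_all _ fun x => ?_)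
    simp only
    rw [max_eq_left (le_max_right (V x - u x - μ) 0)]
  have e3 : ∫ x, (ν x - ρ x) * max (V x - u x - μ) 0 =
      (∫ x, ν x * max (V x - u x - μ) 0) - ∫ x, ρ x * max (V x - u x - μ) 0 := by
    rw [← integral_sub (hF.bc.mul ht.cont.measurable hN).int (hρ.bc.mul ht.cont.measurable hN).int]
    refine integral_congr_ae (ae_of_all _ fun x => ?_)
    simp only; ring
  have e4 : ∫ x, max (V x - u x - μ) 0 * ν x = ∫ x, ν x * max (V x - u x - μ) 0 := by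
    refine integral_congr_ae (ae_of_all _ fun x => ?_)
    simp only; ring
  obtain ⟨MV, _, hMV⟩ := hF.bdd
  obtain ⟨Mu, _, hMu⟩ := hρ.bdd
  have e5 : (∫ x, V x * (κ * (max (V x - u x - μ) 0) ^ (3 / 2 : ℝ))) -
      (∫ x, u x * (κ * (max (V x - u x - μ) 0) ^ (3 / 2 : ℝ))) -
      μ * (∫ x, κ * (max (V x - u x - μ) 0) ^ (3 / 2 : ℝ)) =
      κ * ∫ x, (max (V x - u x - μ) 0) ^ (5 / 2 : ℝ) := by
    rw [← integral_const_mul, ← integral_const_mul]
    have i1 : Integrable (fun x => V x * (κ * (max (V x - u x - μ) 0) ^ (3 / 2 : ℝ))) := by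
      refine (hbc.mul hF.wc.measurable hMV).int.congr (ae_of_all _ fun x => ?_)
      simp only; ring
    have i2 : Integrable (fun x => u x * (κ * (max (V x - u x - μ) 0) ^ (3 / 2 : ℝ))) := by
      refine (hbc.mul hρ.wc.measurable hMu).int.congr (ae_of_all _ fun x => ?_)
      simp only; ring
    have i3 : Integrable (fun x => V x * (κ * (max (V x - u x - μ) 0) ^ (3 / 2 : ℝ)) -
        u x * (κ * (max (V x - u x - μ) 0) ^ (3 / 2 : ℝ))) := i1.sub i2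
    rw [← integral_sub i1 i2, ← integral_sub i3 (hbc.int.const_mul μ)]
    refine integral_congr_ae (ae_of_all _ fun x => ?_)
    simp only
    rcases le_total (V x - u x - μ) 0 with h | h
    · rw [max_eq_right h, Real.zero_rpow (by norm_num), Real.zero_rpow (by norm_num)]; ring
    · rw [max_eq_left h, ← pow_eq' h]; ring
  rw [e1, e2, e3, e4]
  have e6 := kappa_eq hγ
  rw [← hκ] at e6
  have e7 : (3 / 5) * γ * (κ ^ (5 / 3 : ℝ) * ∫ x, (max (V x - u x - μ) 0) ^ (5 / 2 : ℝ)) =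
      (3 / 5) * κ * ∫ x, (max (V x - u x - μ) 0) ^ (5 / 2 : ℝ) := by
    rw [← mul_assoc, mul_assoc (3 / 5) γ, e6]
  rw [e7]
  linear_combination e5


/-- the comparison class -/
def Cls (Z : ℝ) (ρ : X → ℝ) : Prop := BC ρ ∧ (∀ x, 0 ≤ ρ x) ∧ ∫ x, ρ x ≤ Z

lemma V_bound {V ρ : X → ℝ} (hV : Measurable V) {M : ℝ} (hM0 : 0 ≤ M) (hM : ∀ x, |V x| ≤ M)
    {Z : ℝ} (h : Cls Z ρ) : ∫ x, V x * ρ x ≤ M * Z := by
  obtain ⟨hbc, h0, hZ⟩ := h
  have i1 : Integrable (fun x => V x * ρ x) := by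
    refine (hbc.mul hV hM).int.congr (ae_of_all _ fun x => ?_)
    simp only; ring
  calc ∫ x, V x * ρ x ≤ ∫ x, M * ρ x := integral_mono i1 (hbc.int.const_mul M) fun x =>
        mul_le_mul_of_nonneg_right ((le_abs_self _).trans (hM x)) (h0 x)
    _ = M * ∫ x, ρ x := integral_const_mul _ _
    _ ≤ M * Z := mul_le_mul_of_nonneg_left hZ hM0

lemma F_nonneg {γ : ℝ} (hγ : 0 < γ) {ρ : X → ℝ} (h0 : ∀ x, 0 ≤ ρ x) :
    0 ≤ (3 / 5) * γ * ∫ x, ρ x ^ (5 / 3 : ℝ) :=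
  mul_nonneg (by positivity) (integral_nonneg fun x => Real.rpow_nonneg (h0 x) _)

/-- the core inequality: a near minimiser `ρ` gives a near maximiser of the dual functional -/
lemma core {γ : ℝ} (hγ : 0 < γ) {ν V ρ u : X → ℝ} (hF : Fld ν V) (hν : ∀ x, 0 ≤ ν x)
    (hρ : Fld ρ u) (h0 : ∀ x, 0 ≤ ρ x) {Z : ℝ} (hZ : ∫ x, ν x = Z) (hmass : ∫ x, ρ x ≤ Z)
    {I τ t η0 C2 : ℝ} (hI : ∀ ρ', Cls Z ρ' → I ≤ Gf γ ν V ρ') (hnear : Gf γ ν V ρ ≤ I + τ)
    (ht0 : 0 < t) (ht1 : t ≤ 1) (hη : 0 < η0)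
    (hC2 : ∀ u' : X → ℝ, ∀ μ, η0 ≤ μ → (∀ x, 0 ≤ u' x) → Continuous u' →
      BC (fun x => γ ^ (-(3 / 2) : ℝ) * (max (V x - u' x - μ) 0) ^ (3 / 2 : ℝ)) →
      Dself (fun x => γ ^ (-(3 / 2) : ℝ) * (max (V x - u' x - μ) 0) ^ (3 / 2 : ℝ)) ≤ C2) :
    ∃ φ, Test φ ∧ Gf γ ν V ρ ≤ J (γ ^ (-(3 / 2) : ℝ)) ν φ + (t * (Dself ρ + C2) + τ / t + η0 * Z) := by
  set κ := γ ^ (-(3 / 2) : ℝ) with hκ
  have hκ0 : 0 < κ := Real.rpow_pos_of_pos hγ _
  have hZ0 : 0 ≤ Z := by rw [← hZ]; exact integral_nonneg hν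
  have hw : Fld (fun x => ν x - ρ x) (fun x => V x - u x) := hF.sub hρ
  have hu0 : ∀ x, 0 ≤ u x := fun x => by
    rw [← hρ.newton x]
    exact integral_nonneg fun y => div_nonneg (h0 y) (norm_nonneg _)
  obtain ⟨μ, hμη, hN1, hN2⟩ := exists_level hw hκ0 hη hZ0
  have hμ : 0 < μ := lt_of_lt_of_le hη hμη
  have htest := pos_test hw hμ
  refine ⟨_, htest, ?_⟩
  have hJ := J_pos hγ hF hρ hμ
  rw [← hκ] at hJ
  have hbc : BC (fun x => κ * (max (V x - u x - μ) 0) ^ (3 / 2 : ℝ)) := hw.bc_pos hμ (by norm_num)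
  have hD2 := hC2 u μ hμη hu0 hρ.wc hbc
  set ρ' : X → ℝ := fun x => κ * (max (V x - u x - μ) 0) ^ (3 / 2 : ℝ) with hρ'
  have h0' : ∀ x, 0 ≤ ρ' x := fun x => by rw [hρ']; positivity
  obtain ⟨MV, _, hMV⟩ := hF.bdd
  obtain ⟨Mu, _, hMu⟩ := hρ.bdd
  -- convexity
  have hcomb := hρ.bc.comb hbc (1 - t) t
  have hcls : Cls Z (fun x => (1 - t) * ρ x + t * ρ' x) := by
    refine ⟨hcomb, fun x => add_nonneg (mul_nonneg (by linarith) (h0 x)) (mul_nonneg ht0.le (h0' x)), ?_⟩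
    rw [integral_add (hρ.bc.int.const_mul _) (hbc.int.const_mul _), integral_const_mul, integral_const_mul]
    nlinarith
  have h1 := hI _ hcls
  have hU0 : 0 ≤ DD ρ ρ' := DD_nonneg h0 h0'
  have hUu : DD ρ ρ' = ∫ x, u x * ρ' x := by
    rw [DD_symm hρ.bc hbc, DD_fld hρ]
    refine integral_congr_ae (ae_of_all _ fun x => ?_)
    simp only; ring
  have hFc := F_convex hρ.bc hbc h0 h0' ht0.le ht1
  have hVc := int_lin hF.wc.measurable hMV hρ.bc hbc (1 - t) t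
  have hDc := DD_quad hρ.bc hbc (1 - t) t
  have hDρ : Dself ρ = (1 / 2) * DD ρ ρ := rfl
  have hDρ' : Dself ρ' = (1 / 2) * DD ρ' ρ' := rfl
  unfold Gf at h1 hnear ⊢
  rw [Dself_eq, hDc, hVc] at h1
  -- positive part estimates
  have hφν : (∫ x, (V x - u x) * ν x) - μ * Z ≤ ∫ x, ν x * max (V x - u x - μ) 0 := by
    have i1 : Integrable (fun x => (V x - u x) * ν x) := by
      obtain ⟨Mw, _, hMw⟩ := hw.bdd
      refine (hF.bc.mul hw.wc.measurable hMw).int.congr (ae_of_all _ fun x => ?_)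
      simp only; ring
    rw [← hZ, ← integral_const_mul, ← integral_sub i1 (hF.bc.int.const_mul μ)]
    obtain ⟨N, _, hN⟩ := htest.bdd
    refine integral_mono (i1.sub (hF.bc.int.const_mul μ)) (hF.bc.mul htest.cont.measurable hN).int fun x => ?_
    simp only
    have := mul_le_mul_of_nonneg_left (le_max_left (V x - u x - μ) 0) (hν x)
    linarith
  have hφρ : (∫ x, (V x - u x) * ρ x) - μ * (∫ x, ρ x) ≤ ∫ x, ρ x * max (V x - u x - μ) 0 := by
    have i1 : Integrable (fun x => (V x - u x) * ρ x) := by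
      obtain ⟨Mw, _, hMw⟩ := hw.bdd
      refine (hρ.bc.mul hw.wc.measurable hMw).int.congr (ae_of_all _ fun x => ?_)
      simp only; ring
    rw [← integral_const_mul, ← integral_sub i1 (hρ.bc.int.const_mul μ)]
    obtain ⟨N, _, hN⟩ := htest.bdd
    refine integral_mono (i1.sub (hρ.bc.int.const_mul μ)) (hρ.bc.mul htest.cont.measurable hN).int fun x => ?_
    simp only
    have := mul_le_mul_of_nonneg_left (le_max_left (V x - u x - μ) 0) (h0 x)
    linarith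
  have iV : ∀ {τ : X → ℝ}, BC τ → Integrable (fun x => V x * τ x) := fun {τ} hτ => by
    refine (hτ.mul hF.wc.measurable hMV).int.congr (ae_of_all _ fun x => ?_)
    simp only; ring
  have iu : ∀ {τ : X → ℝ}, BC τ → Integrable (fun x => u x * τ x) := fun {τ} hτ => by
    refine (hτ.mul hρ.wc.measurable hMu).int.congr (ae_of_all _ fun x => ?_)
    simp only; ring
  have e1 : ∫ x, (V x - u x) * ν x = (∫ x, V x * ν x) - ∫ x, u x * ν x := by
    rw [← integral_sub (iV hF.bc) (iu hF.bc)]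
    refine integral_congr_ae (ae_of_all _ fun x => ?_)
    simp only; ring
  have e2 : ∫ x, (V x - u x) * ρ x = (∫ x, V x * ρ x) - ∫ x, u x * ρ x := by
    rw [← integral_sub (iV hρ.bc) (iu hρ.bc)]
    refine integral_congr_ae (ae_of_all _ fun x => ?_)
    simp only; ring
  have e3 : ∫ x, u x * ρ x = DD ρ ρ := by
    rw [DD_fld hρ]
    refine integral_congr_ae (ae_of_all _ fun x => ?_)
    simp only; ring
  have e4 : ∫ x, u x * ν x = ∫ x, V x * ρ x := by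
    have h5 := DD_symm hρ.bc hF.bc
    rw [DD_fld hF, DD_fld hρ] at h5
    rw [show (∫ x, u x * ν x) = ∫ x, ν x * u x from integral_congr_ae (ae_of_all _ fun x => by
      simp only; ring), ← h5]
    refine integral_congr_ae (ae_of_all _ fun x => ?_)
    simp only; ring
  rw [e1, e4] at hφν
  rw [e2, e3] at hφρ
  rw [hUu] at hU0 h1
  rw [hJ]
  -- abstract the numbers
  have hγ0 : 0 ≤ (3 / 5) * γ := by positivity
  have hFc' := mul_le_mul_of_nonneg_left hFc hγ0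
  have hm : μ * ((∫ x, ρ' x) - (1 / 2) * Z - (1 / 2) * ∫ x, ρ x) ≥ - (η0 * Z) := by
    have hρ'0 : 0 ≤ ∫ x, ρ' x := integral_nonneg h0'
    rcases hN2 with h | h
    · rw [h]
      nlinarith
    · have h6 : ∫ x, ρ' x = Z := h
      rw [h6]
      have : 0 ≤ μ * (Z - (1 / 2) * Z - (1 / 2) * ∫ x, ρ x) :=
        mul_nonneg hμ.le (by linarith)
      nlinarith
  rw [hDρ] at hnear ⊢
  rw [hDρ'] at hD2
  generalize (∫ x, ρ x ^ (5 / 3 : ℝ)) = f1 at *
  generalize (∫ x, ρ' x ^ (5 / 3 : ℝ)) = f2 at *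
  generalize (∫ x, ((1 - t) * ρ x + t * ρ' x) ^ (5 / 3 : ℝ)) = f3 at *
  generalize (∫ x, V x * ρ x) = vr at *
  generalize (∫ x, V x * ρ' x) = vr' at *
  generalize (∫ x, V x * ν x) = vn at *
  generalize (∫ x, u x * ρ' x) = U at *
  generalize (∫ x, ν x * max (V x - u x - μ) 0) = p1 at *
  generalize (∫ x, ρ x * max (V x - u x - μ) 0) = p2 at *
  generalize (∫ x, ρ x) = m1 at *
  generalize (∫ x, ρ' x) = m2 at *
  generalize DD ρ ρ = d1 at *
  generalize DD ρ' ρ' = d2 at *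
  have h7 : 0 ≤ t * ((3 / 5) * γ * f2 - (3 / 5) * γ * f1 + vr - vr' - d1 + U) +
      t ^ 2 * ((1 / 2) * d1 + (1 / 2) * d2 - U) + τ := by nlinarith
  have h8 : 0 ≤ ((3 / 5) * γ * f2 - (3 / 5) * γ * f1 + vr - vr' - d1 + U) +
      t * ((1 / 2) * d1 + (1 / 2) * d2 - U) + τ / t := by
    have h9 : t * (((3 / 5) * γ * f2 - (3 / 5) * γ * f1 + vr - vr' - d1 + U) +
      t * ((1 / 2) * d1 + (1 / 2) * d2 - U) + τ / t) = t * ((3 / 5) * γ * f2 - (3 / 5) * γ * f1 + vr - vr' - d1 + U) +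
      t ^ 2 * ((1 / 2) * d1 + (1 / 2) * d2 - U) + τ := by
      field_simp
    rw [← h9] at h7
    exact nonneg_of_mul_nonneg_right h7 ht0
  have h10 : 0 ≤ t * U := mul_nonneg ht0.le hU0
  have h11 : t * ((1 / 2) * d1 + (1 / 2) * d2 - U) ≤ t * ((1 / 2) * d1 + C2) := by
    nlinarith
  nlinarith


theorem strong_dual {γ : ℝ} (hγ : 0 < γ) {ν V : X → ℝ} (hF : Fld ν V) (hν : ∀ x, 0 ≤ ν x)
    (Hmol : ∀ ρ, BC ρ → (∀ x, 0 ≤ ρ x) → ∀ τ : ℝ, 0 < τ → ∃ ρ' u', Fld ρ' u' ∧ (∀ x, 0 ≤ ρ' x) ∧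
      (∫ x, ρ' x = ∫ x, ρ x) ∧ Gf γ ν V ρ' ≤ Gf γ ν V ρ + τ) {η : ℝ} (hη : 0 < η) :
    ∃ ρ, Cls (∫ x, ν x) ρ ∧ ∃ φ, Test φ ∧ Gf γ ν V ρ ≤ J (γ ^ (-(3 / 2) : ℝ)) ν φ + η := by
  set Z := ∫ x, ν x with hZ
  have hZ0 : 0 ≤ Z := integral_nonneg hν
  set κ := γ ^ (-(3 / 2) : ℝ) with hκ
  have hκ0 : 0 < κ := Real.rpow_pos_of_pos hγ _
  obtain ⟨MV, hMV0, hMV⟩ := hF.bdd
  set η0 := η / (4 * (Z + 1)) with hη0
  have hη0pos : 0 < η0 := by positivity
  have hη0Z : η0 * Z ≤ η / 4 := by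
    rw [hη0, div_mul_eq_mul_div, div_le_div_iff₀ (by positivity) (by positivity)]
    nlinarith
  have hbc0 : BC (fun x => κ * (max (V x - η0) 0) ^ (3 / 2 : ℝ)) := hF.bc_pos hη0pos (by norm_num)
  set C2 := Dself (fun x => κ * (max (V x - η0) 0) ^ (3 / 2 : ℝ)) with hC2def
  have hC20 : 0 ≤ C2 := by
    rw [hC2def, Dself_eq]
    exact mul_nonneg (by norm_num) (DD_nonneg (fun x => by positivity) (fun x => by positivity))
  have hC2 : ∀ u' : X → ℝ, ∀ μ, η0 ≤ μ → (∀ x, 0 ≤ u' x) → Continuous u' →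
      BC (fun x => κ * (max (V x - u' x - μ) 0) ^ (3 / 2 : ℝ)) →
      Dself (fun x => κ * (max (V x - u' x - μ) 0) ^ (3 / 2 : ℝ)) ≤ C2 := by
    intro u' μ hμ hu' _ hbc
    rw [hC2def, Dself_eq, Dself_eq]
    refine mul_le_mul_of_nonneg_left ?_ (by norm_num)
    have hle : ∀ x, κ * (max (V x - u' x - μ) 0) ^ (3 / 2 : ℝ) ≤ κ * (max (V x - η0) 0) ^ (3 / 2 : ℝ) := by
      intro x
      have : max (V x - u' x - μ) 0 ≤ max (V x - η0) 0 := max_le_max_right 0 (by linarith [hu' x])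
      gcongr
    exact DD_mono hbc hbc hbc0 hbc0 (fun x => by positivity) (fun x => by positivity) hle hle
  set C := 1 + MV * Z + C2 + 1 with hC
  have hCpos : 0 < C := by positivity
  set t := min 1 (η / (4 * C)) with ht
  have ht0 : 0 < t := lt_min one_pos (by positivity)
  have ht1 : t ≤ 1 := min_le_left _ _
  have htC : t * C ≤ η / 4 := by
    have h1 : t ≤ η / (4 * C) := min_le_right _ _
    calc t * C ≤ η / (4 * C) * C := mul_le_mul_of_nonneg_right h1 hCpos.le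
      _ = η / 4 := by field_simp
  set τ := min 1 (t * η / 4) with hτ
  have hτ0 : 0 < τ := lt_min one_pos (by positivity)
  have hτ1 : τ ≤ 1 := min_le_left _ _
  have hτt : τ / t ≤ η / 4 := by
    rw [div_le_iff₀ ht0]
    have h1 : τ ≤ t * η / 4 := min_le_right _ _
    linarith
  -- the infimum
  set S : Set ℝ := {g | ∃ ρ, Cls Z ρ ∧ g = Gf γ ν V ρ} with hS
  have hzero : Cls Z (fun _ => 0) :=
    ⟨⟨measurable_const, ⟨0, le_rfl, fun x => by simp⟩, ⟨1, one_pos, fun _ _ => rfl⟩⟩, fun _ => le_rfl, by simpa using hZ0⟩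
  have hne : S.Nonempty := ⟨_, _, hzero, rfl⟩
  have hbdd : BddBelow S := by
    refine ⟨-(MV * Z) + (1 / 2) * ∫ x, V x * ν x, ?_⟩
    rintro g ⟨ρ, hρ, rfl⟩
    have h1 := V_bound hF.wc.measurable hMV0 hMV hρ
    have h2 := F_nonneg hγ hρ.2.1
    have h3 : 0 ≤ Dself ρ := Dself_nonneg hρ.2.1
    unfold Gf
    linarith
  have hI : ∀ ρ', Cls Z ρ' → sInf S ≤ Gf γ ν V ρ' := fun ρ' h => csInf_le hbdd ⟨ρ', h, rfl⟩
  obtain ⟨g, ⟨ρb, hρb, rfl⟩, hlt⟩ := exists_lt_of_csInf_lt hne (show sInf S < sInf S + τ / 2 by linarith)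
  obtain ⟨ρ, u, hρ, h0, hmass, hG⟩ := Hmol ρb hρb.1 hρb.2.1 (τ / 2) (by linarith)
  have hmassZ : ∫ x, ρ x ≤ Z := by rw [hmass]; exact hρb.2.2
  have hclsρ : Cls Z ρ := ⟨hρ.bc, h0, hmassZ⟩
  have hnear : Gf γ ν V ρ ≤ sInf S + τ := by linarith
  obtain ⟨φ, hφ, hle⟩ := core hγ hF hν hρ h0 hZ.symm hmassZ hI hnear ht0 ht1 hη0pos hC2
  refine ⟨ρ, hclsρ, φ, hφ, ?_⟩
  -- bound on Dself ρ
  have hD1 : Dself ρ ≤ 1 + MV * Z := by
    have h1 := hI _ hzero
    have h2 : Gf γ ν V (fun _ => 0) = (1 / 2) * ∫ x, V x * ν x := by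
      unfold Gf Dself
      simp [Real.zero_rpow (show (5 / 3 : ℝ) ≠ 0 by norm_num)]
    have h3 := V_bound hF.wc.measurable hMV0 hMV hclsρ
    have h4 := F_nonneg hγ h0
    rw [h2] at h1
    unfold Gf at hnear
    linarith
  have hfin : t * (Dself ρ + C2) ≤ η / 4 := by
    refine le_trans ?_ htC
    refine mul_le_mul_of_nonneg_left ?_ ht0.le
    linarith
  linarith

end

end Pool.Agent.Helper96.TF
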