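import Pool.Agent.Helper96.TF.Strong
import Pool.Agent.Helper69.TF.Bump2

set_option autoImplicit false

open MeasureTheory Set Filter Topology

namespace Pool.Agent.Helper96.TF

noncomputable section

lemma E_fld {ε : ℝ} (hε : 0 < ε) : Fld (mE ε) (vE ε) := by
  refine ⟨mE_cont ε, mE_hcs hε, ⟨_, vE_lip hε⟩, ?_, fun x i => (vE_line hε i x).lineDifferentiableAt,
    fun i => ?_, fun ψ hψ => ?_, fun x => newton hε x⟩
  · refine ⟨2, fun x => ?_⟩
    rw [abs_of_pos (vE_pos hε x)]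
    by_cases hx : x = 0
    · rw [hx]; simp
    · have h1 := vE_le hε hx
      have h2 : 0 < ‖x‖ := norm_pos_iff.mpr hx
      calc vE ε x * ‖x‖ ≤ ‖x‖⁻¹ * ‖x‖ := mul_le_mul_of_nonneg_right h1 h2.le
        _ = 1 := inv_mul_cancel₀ h2.ne'
        _ ≤ 2 := by norm_num
  · simp_rw [fun x => (vE_line hε i x).lineDeriv]
    exact (bE_lip hε i).continuous
  · rw [← green_vE hε hψ]
    refine integral_congr_ae (ae_of_all _ fun x => ?_)
    unfold gg
    exact Finset.sum_congr rfl fun i _ => by rw [(vE_line hε i x).lineDeriv]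


lemma E_nuS_fld {ι : Type} [Fintype ι] (z : ι → ℝ) (R : ι → X) {δ : ℝ} (hδ : 0 < δ) :
    Fld (nuS z R δ) (VS z R δ) :=
  Fld.sum Finset.univ fun i => ((E_fld hδ).shift (R i)).const_mul (z i)

lemma E_nuS_nonneg {ι : Type} [Fintype ι] {z : ι → ℝ} (hz : ∀ i, 0 ≤ z i) (R : ι → X) {δ : ℝ}
    (hδ : 0 < δ) (x : X) : 0 ≤ nuS z R δ x :=
  Finset.sum_nonneg fun i _ => mul_nonneg (hz i) (mE_nonneg hδ _)

lemma E_nuS_nice {ι : Type} [Fintype ι] {z : ι → ℝ} (hz : ∀ i, 0 ≤ z i) (R : ι → X) {δ : ℝ}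
    (hδ : 0 < δ) : Nice (nuS z R δ) :=
  ⟨(E_nuS_fld z R hδ).sc, E_nuS_nonneg hz R hδ, (E_nuS_fld z R hδ).ss⟩

lemma E_nuS_mass {ι : Type} [Fintype ι] (z : ι → ℝ) (R : ι → X) {δ : ℝ}
    (hδ : 0 < δ) : ∫ x, nuS z R δ x = ∑ i, z i := by
  unfold nuS
  rw [integral_finsetSum]
  · refine Finset.sum_congr rfl fun i _ => ?_
    rw [integral_const_mul, integral_sub_right_eq_self (fun x => mE δ x), mE_int hδ, mul_one]
  · intro i _
    exact ((mE_integrable hδ).comp_sub_right (R i)).const_mul (z i)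

lemma Vp_nonneg {ι : Type} [Fintype ι] {z : ι → ℝ} (hz : ∀ i, 0 ≤ z i) (R : ι → X) (x : X) :
    0 ≤ Vp z R x := Finset.sum_nonneg fun i _ => div_nonneg (hz i) (norm_nonneg _)

lemma Vp_int {ι : Type} [Fintype ι] (z : ι → ℝ) (R : ι → X) {ρ : X → ℝ} (h : BC ρ) :
    Integrable (fun x => Vp z R x * ρ x) := by
  unfold Vp
  simp_rw [Finset.sum_mul]
  refine integrable_finsetSum _ fun i _ => ?_
  refine ((h.pot (R i)).const_mul (z i)).congr (ae_of_all _ fun x => ?_)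
  simp only
  rw [norm_sub_rev]; ring

lemma VS_le_Vp {ι : Type} [Fintype ι] {z : ι → ℝ} (hz : ∀ i, 0 ≤ z i) (R : ι → X) {δ : ℝ}
    (hδ : 0 < δ) : ∀ᵐ x, VS z R δ x ≤ Vp z R x := by
  have h1 : ∀ᵐ x : X, ∀ i, x ≠ R i := by
    rw [ae_all_iff]
    intro i
    have : (volume : Measure X) {R i} = 0 := measure_singleton (R i)
    exact compl_mem_ae_iff.mpr this
  filter_upwards [h1] with x hx
  unfold VS Vp
  refine Finset.sum_le_sum fun i _ => ?_
  rw [div_eq_mul_inv]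
  exact mul_le_mul_of_nonneg_left (vE_le hδ (sub_ne_zero.mpr (hx i))) (hz i)

/-- completing the mass far away -/
lemma complete_mass {ι : Type} [Fintype ι] {γ : ℝ} (hγ : 0 < γ) {z : ι → ℝ} (hz : ∀ i, 0 ≤ z i)
    (R : ι → X) {ρ : X → ℝ} (hρ : Cls (∑ i, z i) ρ) :
    TFE γ z R ≤ (3 / 5) * γ * (∫ x, ρ x ^ (5 / 3 : ℝ)) - (∫ x, Vp z R x * ρ x) + Dself ρ +
      Urep z R := by
  obtain ⟨hbc, h0, hmass⟩ := hρ
  set q := (∑ i, z i) - ∫ x, ρ x with hq
  have hq0 : 0 ≤ q := by linarith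
  obtain ⟨Rρ, hRρ, hsupp⟩ := hbc.supp
  set m1 := ∫ x, ρ x with hm1
  have hm0 : 0 ≤ m1 := integral_nonneg h0
  have key : ∀ L : ℝ, Rρ + 1 ≤ L → TFE γ z R ≤ (3 / 5) * γ * (∫ x, ρ x ^ (5 / 3 : ℝ)) -
      (∫ x, Vp z R x * ρ x) + Dself ρ + Urep z R +
      ((3 / 5) * γ * q ^ (5 / 3 : ℝ) / L ^ 2 + 2 * q * m1 / L + q ^ 2 / L) := by
    intro L hL
    have hL0 : 0 < L := by linarith
    set a : X := (3 * L) • e 0 with ha
    have hna : ‖a‖ = 3 * L := by
      rw [ha, norm_smul, norm_e, mul_one, Real.norm_eq_abs, abs_of_pos (by positivity)]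
    set b : X → ℝ := fun x => q * mE L (x - a) with hb
    have hbF : Fld b (fun x => q * vE L (x - a)) := ((E_fld hL0).shift a).const_mul q
    have hbb : BC b := hbF.bc
    have hb0 : ∀ x, 0 ≤ b x := fun x => mul_nonneg hq0 (mE_nonneg hL0 _)
    have hbmass : ∫ x, b x = q := by
      rw [hb, integral_const_mul, integral_sub_right_eq_self (fun x => mE L x), mE_int hL0, mul_one]
    have hdisj : ∀ x, ρ x = 0 ∨ b x = 0 := by
      intro x
      rcases le_total Rρ ‖x‖ with h | h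
      · exact Or.inl (hsupp x h)
      · right
        rw [hb]
        have h1 : L ≤ ‖x - a‖ := by
          have := norm_sub_norm_le a x
          rw [norm_sub_rev] at this
          linarith
        simp only
        rw [mE_supp hL0 h1, mul_zero]
    have hp : (0:ℝ) < 5 / 3 := by norm_num
    have hr : BC (fun x => ρ x + b x) := hbc.add hbb
    have hr0 : ∀ x, 0 ≤ ρ x + b x := fun x => add_nonneg (h0 x) (hb0 x)
    have hadm : Adm (∑ i, z i) (fun x => ρ x + b x) := by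
      refine ⟨hr.meas, hr0, hr.int, (hr.rpw hr0 hp).int, ?_⟩
      rw [integral_add hbc.int hbb.int, hbmass, hq]; ring
    have hle : TFE γ z R ≤ energy γ z R (fun x => ρ x + b x) :=
      csInf_le (energySet_bddBelow hγ z hz R) ⟨_, hadm, rfl⟩
    refine hle.trans ?_
    unfold energy
    -- kinetic term
    have e1 : ∫ x, (ρ x + b x) ^ (5 / 3 : ℝ) = (∫ x, ρ x ^ (5 / 3 : ℝ)) + ∫ x, b x ^ (5 / 3 : ℝ) := by
      rw [← integral_add (hbc.rpw h0 hp).int (hbb.rpw hb0 hp).int]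
      refine integral_congr_ae (ae_of_all _ fun x => ?_)
      simp only
      rcases hdisj x with h | h
      · rw [h, Real.zero_rpow hp.ne']; simp
      · rw [h, Real.zero_rpow hp.ne']; simp
    have e2 : ∫ x, b x ^ (5 / 3 : ℝ) ≤ q ^ (5 / 3 : ℝ) / L ^ 2 := by
      have hpt : ∀ x, b x ^ (5 / 3 : ℝ) ≤ q ^ (5 / 3 : ℝ) / L ^ 2 * mE L (x - a) := by
        intro x
        have hmn := mE_nonneg hL0 (x - a)
        have hml := mE_le hL0 (x - a)
        rw [hb]
        simp only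
        rw [Real.mul_rpow hq0 hmn, div_mul_eq_mul_div, mul_div_assoc]
        refine mul_le_mul_of_nonneg_left ?_ (Real.rpow_nonneg hq0 _)
        rcases eq_or_lt_of_le hmn with h | h
        · rw [← h, Real.zero_rpow hp.ne']; simp
        · have h3 : mE L (x - a) ^ (5 / 3 : ℝ) = mE L (x - a) ^ (2 / 3 : ℝ) * mE L (x - a) := by
            nth_rewrite 3 [← Real.rpow_one (mE L (x - a))]
            rw [← Real.rpow_add h]; norm_num
          rw [h3, show mE L (x - a) / L ^ 2 = (L ^ 2)⁻¹ * mE L (x - a) by ring]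
          refine mul_le_mul_of_nonneg_right ?_ hmn
          calc mE L (x - a) ^ (2 / 3 : ℝ) ≤ (L⁻¹ ^ 3) ^ (2 / 3 : ℝ) :=
                Real.rpow_le_rpow hmn hml (by norm_num)
            _ = (L ^ 2)⁻¹ := by
                rw [← Real.rpow_natCast, ← Real.rpow_mul (by positivity), ← inv_pow,
                  ← Real.rpow_natCast]
                norm_num
      have h4 : Integrable (fun x => q ^ (5 / 3 : ℝ) / L ^ 2 * mE L (x - a)) :=
        ((mE_integrable hL0).comp_sub_right a).const_mul _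
      refine (integral_mono (hbb.rpw hb0 hp).int h4 hpt).trans (le_of_eq ?_)
      rw [integral_const_mul, integral_sub_right_eq_self (fun x => mE L x), mE_int hL0, mul_one]
    -- attraction
    have e3 : ∫ x, Vp z R x * ρ x ≤ ∫ x, Vp z R x * (ρ x + b x) := by
      refine integral_mono (Vp_int z R hbc) (Vp_int z R hr) fun x => ?_
      exact mul_le_mul_of_nonneg_left (by linarith [hb0 x]) (Vp_nonneg hz R x)
    -- repulsion
    have e4 : Dself (fun x => ρ x + b x) = Dself ρ + DD ρ b + Dself b := by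
      have h1 := DD_quad hbc hbb 1 1
      simp only [one_mul] at h1
      rw [Dself_eq, Dself_eq, Dself_eq, h1]; ring
    have hvle : ∀ x, q * vE L (x - a) ≤ q * (2 / L) := fun x =>
      mul_le_mul_of_nonneg_left (vE_le_two hL0 _) hq0
    have hvb : ∀ x, |q * vE L (x - a)| ≤ q * (2 / L) := fun x => by
      rw [abs_of_nonneg (mul_nonneg hq0 (vE_pos hL0 _).le)]; exact hvle x
    have e5 : ∀ τ : X → ℝ, BC τ → (∀ x, 0 ≤ τ x) → DD τ b ≤ q * (2 / L) * ∫ x, τ x := by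
      intro τ hτ hτ0
      rw [DD_fld hbF, ← integral_const_mul]
      refine integral_mono (hτ.mul hbF.wc.measurable hvb).int (hτ.int.const_mul _) fun x => ?_
      simp only
      rw [mul_comm]
      exact mul_le_mul_of_nonneg_right (hvle x) (hτ0 x)
    have e6 := e5 ρ hbc h0
    have e7 := e5 b hbb hb0
    rw [hbmass] at e7
    rw [e1, e4, Dself_eq b]
    have hγ5 : 0 < (3 / 5) * γ := by positivity
    have e8 := mul_le_mul_of_nonneg_left e2 hγ5.le
    have e9 : q * (2 / L) * m1 = 2 * q * m1 / L := by ring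
    have e10 : q * (2 / L) * q = 2 * (q ^ 2 / L) := by ring
    have e11 : (3 / 5) * γ * (q ^ (5 / 3 : ℝ) / L ^ 2) = (3 / 5) * γ * q ^ (5 / 3 : ℝ) / L ^ 2 := by ring
    rw [← hm1, e9] at e6
    rw [e10] at e7
    rw [e11] at e8
    rw [mul_add]
    linarith
  have hlim : Tendsto (fun L : ℝ => (3 / 5) * γ * (∫ x, ρ x ^ (5 / 3 : ℝ)) -
      (∫ x, Vp z R x * ρ x) + Dself ρ + Urep z R +
      ((3 / 5) * γ * q ^ (5 / 3 : ℝ) / L ^ 2 + 2 * q * m1 / L + q ^ 2 / L)) atTop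
      (𝓝 ((3 / 5) * γ * (∫ x, ρ x ^ (5 / 3 : ℝ)) -
      (∫ x, Vp z R x * ρ x) + Dself ρ + Urep z R + (0 + 0 + 0))) := by
    refine tendsto_const_nhds.add ((Tendsto.add ?_ ?_).add ?_)
    · exact tendsto_const_nhds.div_atTop (tendsto_pow_atTop (by norm_num))
    · exact tendsto_const_nhds.div_atTop tendsto_id
    · exact tendsto_const_nhds.div_atTop tendsto_id
  have h1 := ge_of_tendsto hlim ((eventually_ge_atTop (Rρ + 1)).mono key)
  simpa using h1

/-- the energy is at most the value of the dual problem -/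
theorem TFE_le_dual {ι : Type} [Fintype ι] {γ : ℝ} (hγ : 0 < γ) {z : ι → ℝ} (hz : ∀ i, 0 ≤ z i)
    (R : ι → X) {δ : ℝ} (hδ : 0 < δ)
    (hself : (1 / 2) * ∫ x, VS z R δ x * nuS z R δ x = Urep z R + selfE z δ)
    (Hmol : ∀ ρ, BC ρ → (∀ x, 0 ≤ ρ x) → ∀ τ : ℝ, 0 < τ → ∃ ρ' u', Fld ρ' u' ∧ (∀ x, 0 ≤ ρ' x) ∧
      (∫ x, ρ' x = ∫ x, ρ x) ∧ Gf γ (nuS z R δ) (VS z R δ) ρ' ≤ Gf γ (nuS z R δ) (VS z R δ) ρ + τ) :
    TFE γ z R ≤ T (γ ^ (-(3 / 2) : ℝ)) (nuS z R δ) - selfE z δ := by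
  refine le_of_forall_pos_le_add fun η hη => ?_
  have hF := E_nuS_fld z R hδ
  obtain ⟨ρ, hρ, φ, hφ, hle⟩ := strong_dual hγ hF (E_nuS_nonneg hz R hδ) Hmol hη
  rw [E_nuS_mass z R hδ] at hρ
  have h1 := complete_mass hγ hz R hρ
  have h2 := J_le_T (Real.rpow_pos_of_pos hγ (-(3 / 2) : ℝ)) (E_nuS_nice hz R hδ) hφ
  have h3 : ∫ x, VS z R δ x * ρ x ≤ ∫ x, Vp z R x * ρ x := by
    obtain ⟨M, _, hM⟩ := hF.bdd
    have i1 : Integrable (fun x => VS z R δ x * ρ x) := by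
      refine (hρ.1.mul hF.wc.measurable hM).int.congr (ae_of_all _ fun x => ?_)
      simp only; ring
    refine integral_mono_ae i1 (Vp_int z R hρ.1) ?_
    filter_upwards [VS_le_Vp hz R hδ] with x hx
    exact mul_le_mul_of_nonneg_right hx (hρ.2.1 x)
  unfold Gf at hle
  rw [hself] at hle
  linarith

end

end Pool.Agent.Helper96.TF
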